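import Mathlib

set_option autoImplicit false

/-! Definitions used in the statement on ends and finite Kurosh rank. -/

namespace Pool.Agent.LibKurosh

/-- The relators of Kurosh's group. The generator `Sum.inl n` is `a_n` (`n ≥ 0`) and `Sum.inr n`
is `b_{n+1}` (`n ≥ 0`); the relators say that `a_n` is the commutator of `a_{n+1}` and `b_{n+1}`. -/
def kuroshRels : Set (FreeGroup (ℕ ⊕ ℕ)) :=
  Set.range fun n : ℕ =>
    FreeGroup.of (Sum.inl (n + 1)) * FreeGroup.of (Sum.inr n) *
      (FreeGroup.of (Sum.inl (n + 1)))⁻¹ * (FreeGroup.of (Sum.inr n))⁻¹ *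
        (FreeGroup.of (Sum.inl n))⁻¹

/-- Kurosh's group. -/
abbrev Kurosh : Type := PresentedGroup kuroshRels

/-- A group is freely indecomposable if it is nontrivial and is not isomorphic to a free product
of two nontrivial groups. -/
def FreelyIndecomposable (K : Type) [Group K] : Prop :=
  Nontrivial K ∧ ∀ (A B : Type) [Group A] [Group B], Nontrivial A → Nontrivial B →
    IsEmpty (K ≃* Monoid.Coprod A B)

/-- A group has finite Kurosh rank if it is isomorphic to a free product of finitely many freely
indecomposable groups (the empty free product, the trivial group, being allowed). -/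
def FiniteKuroshRank (G : Type) [Group G] : Prop :=
  ∃ (n : ℕ) (K : Fin n → Type) (_ : ∀ i, Group (K i)),
    (∀ i, FreelyIndecomposable (K i)) ∧ Nonempty (G ≃* Monoid.CoprodI K)

/-- The right translate `A g` of a subset. -/
def rtrans {G : Type} [Group G] (A : Set G) (g : G) : Set G := {x | ∃ a ∈ A, a * g = x}

section

variable {G : Type} [Group G]

lemma mem_rtrans (A : Set G) (g x : G) : x ∈ rtrans A g ↔ x * g⁻¹ ∈ A := by
  constructor
  · rintro ⟨a, ha, rfl⟩
    simpa using ha
  · intro h
    exact ⟨x * g⁻¹, h, by simp⟩

omit [Group G] in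
lemma symmDiff_sup_subset (A B A' B' : Set G) :
    symmDiff (A ∪ B) (A' ∪ B') ⊆ symmDiff A A' ∪ symmDiff B B' := by
  intro x
  simp only [Set.mem_symmDiff, Set.mem_union]
  tauto

omit [Group G] in
lemma symmDiff_inf_subset (A B A' B' : Set G) :
    symmDiff (A ∩ B) (A' ∩ B') ⊆ symmDiff A A' ∪ symmDiff B B' := by
  intro x
  simp only [Set.mem_symmDiff, Set.mem_union, Set.mem_inter_iff]
  tauto

omit [Group G] in
lemma symmDiff_compl' (A B : Set G) : symmDiff Aᶜ Bᶜ = symmDiff A B := by
  ext x
  simp only [Set.mem_symmDiff, Set.mem_compl_iff]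
  tauto

lemma rtrans_union (A B : Set G) (g : G) : rtrans (A ∪ B) g = rtrans A g ∪ rtrans B g := by
  ext x
  simp [mem_rtrans]

lemma rtrans_inter (A B : Set G) (g : G) : rtrans (A ∩ B) g = rtrans A g ∩ rtrans B g := by
  ext x
  simp [mem_rtrans]

lemma rtrans_compl (A : Set G) (g : G) : rtrans Aᶜ g = (rtrans A g)ᶜ := by
  ext x
  simp [mem_rtrans]

end

/-- The Boolean algebra of the subsets `A` of `G` such that the symmetric difference of `A` and
`A g` is finite for every `g`. -/
def almostInvariant (G : Type) [Group G] : BooleanSubalgebra (Set G) where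
  carrier := {A | ∀ g : G, (symmDiff A (rtrans A g)).Finite}
  supClosed' := by
    intro A hA B hB g
    show (symmDiff (A ∪ B) (rtrans (A ∪ B) g)).Finite
    rw [rtrans_union]
    exact ((hA g).union (hB g)).subset (symmDiff_sup_subset _ _ _ _)
  infClosed' := by
    intro A hA B hB g
    show (symmDiff (A ∩ B) (rtrans (A ∩ B) g)).Finite
    rw [rtrans_inter]
    exact ((hA g).union (hB g)).subset (symmDiff_inf_subset _ _ _ _)
  compl_mem' := by
    intro A hA g
    show (symmDiff Aᶜ (rtrans Aᶜ g)).Finite
    rw [rtrans_compl, symmDiff_compl']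
    exact hA g
  bot_mem' := by
    intro g
    have : symmDiff (∅ : Set G) (rtrans ∅ g) = ∅ := by
      ext x
      simp [Set.mem_symmDiff, mem_rtrans]
    show (symmDiff (∅ : Set G) (rtrans ∅ g)).Finite
    rw [this]
    exact Set.finite_empty

/-- Two members are identified when their symmetric difference is finite. -/
def finSetoid (G : Type) [Group G] : Setoid (almostInvariant G) where
  r A B := (symmDiff (A : Set G) (B : Set G)).Finite
  iseqv :=
    { refl := fun A => by simp
      symm := fun {A B} h => by rwa [symmDiff_comm]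
      trans := fun {A B C} h h' =>
        (h.union h').subset (by
          intro x
          simp only [Set.mem_symmDiff, Set.mem_union]
          tauto) }

/-- The quotient of the Boolean algebra `almostInvariant G` by the ideal of finite subsets. -/
def EndAlgebra (G : Type) [Group G] : Type := Quotient (finSetoid G)

section

variable {G : Type} [Group G]

instance : Max (EndAlgebra G) where
  max := Quotient.map₂ (· ⊔ ·) (by
    intro A A' h B B' h'
    exact (Set.Finite.union h h').subset (symmDiff_sup_subset _ _ _ _))

instance : Min (EndAlgebra G) where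
  min := Quotient.map₂ (· ⊓ ·) (by
    intro A A' h B B' h'
    exact (Set.Finite.union h h').subset (symmDiff_inf_subset _ _ _ _))

instance : Compl (EndAlgebra G) where
  compl := Quotient.map compl (by
    intro A A' h
    show (symmDiff (A : Set G)ᶜ (A' : Set G)ᶜ).Finite
    rw [symmDiff_compl']
    exact h)

instance : Lattice (EndAlgebra G) :=
  Lattice.mk'
    (by rintro ⟨a⟩ ⟨b⟩; exact congrArg (Quotient.mk (finSetoid G)) (sup_comm a b))
    (by rintro ⟨a⟩ ⟨b⟩ ⟨c⟩; exact congrArg (Quotient.mk (finSetoid G)) (sup_assoc a b c))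
    (by rintro ⟨a⟩ ⟨b⟩; exact congrArg (Quotient.mk (finSetoid G)) (inf_comm a b))
    (by rintro ⟨a⟩ ⟨b⟩ ⟨c⟩; exact congrArg (Quotient.mk (finSetoid G)) (inf_assoc a b c))
    (by rintro ⟨a⟩ ⟨b⟩; exact congrArg (Quotient.mk (finSetoid G)) sup_inf_self)
    (by rintro ⟨a⟩ ⟨b⟩; exact congrArg (Quotient.mk (finSetoid G)) inf_sup_self)

/-- The quotient Boolean algebra; all operations are induced from `almostInvariant G`. -/
instance : BooleanAlgebra (EndAlgebra G) where
  __ := (inferInstance : Lattice (EndAlgebra G))
  le_sup_inf := by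
    rintro ⟨a⟩ ⟨b⟩ ⟨c⟩
    refine le_of_eq ?_
    exact congrArg (Quotient.mk (finSetoid G)) (sup_inf_left a b c).symm
  compl := compl
  top := Quotient.mk (finSetoid G) ⊤
  bot := Quotient.mk (finSetoid G) ⊥
  inf_compl_le_bot := by
    rintro ⟨a⟩
    refine le_of_eq ?_
    exact congrArg (Quotient.mk (finSetoid G)) (inf_compl_self a)
  top_le_sup_compl := by
    rintro ⟨a⟩
    refine le_of_eq ?_
    exact congrArg (Quotient.mk (finSetoid G)) (sup_compl_eq_top (x := a)).symm
  le_top := by
    rintro ⟨a⟩
    refine sup_eq_right.mp ?_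
    exact congrArg (Quotient.mk (finSetoid G)) (sup_top_eq a)
  bot_le := by
    rintro ⟨a⟩
    refine sup_eq_right.mp ?_
    exact congrArg (Quotient.mk (finSetoid G)) (bot_sup_eq a)

end

/-- The Stone space of a Boolean algebra: its homomorphisms to the two-element Boolean algebra,
with the topology of pointwise convergence. -/
def Stone (B : Type) [BooleanAlgebra B] : Type := BoundedLatticeHom B Bool

noncomputable instance (B : Type) [BooleanAlgebra B] : TopologicalSpace (Stone B) :=
  TopologicalSpace.induced (fun φ : BoundedLatticeHom B Bool => (fun b => φ b : B → Bool))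
    inferInstance

/-- The space of ends of a group. -/
abbrev SpaceOfEnds (G : Type) [Group G] : Type := Stone (EndAlgebra G)

/-- A group is metrizably-ended if its space of ends is metrizable. -/
def MetrizablyEnded (G : Type) [Group G] : Prop :=
  TopologicalSpace.MetrizableSpace (SpaceOfEnds G)

end Pool.Agent.LibKurosh
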