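import Mathlib

set_option autoImplicit false

/-! Groups acting on trees with trivial edge stabilisers: a hands-on version of the structure
theorem, in the form needed for free products. A graph is given by two maps `s t : E → V`. -/

namespace Pool.Agent.LibKurosh

section Graph

variable {V E : Type*} (s t : E → V)

/-- Two vertices are joined by a path that uses no edge of `S`. -/
def Reach (S : Set E) : V → V → Prop :=
  Relation.EqvGen (fun x y => ∃ e, e ∉ S ∧ s e = x ∧ t e = y)

variable {s t}

lemma Reach.refl (S : Set E) (x : V) : Reach s t S x x := Relation.EqvGen.refl x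

lemma Reach.symm {S : Set E} {x y : V} (h : Reach s t S x y) : Reach s t S y x :=
  Relation.EqvGen.symm _ _ h

lemma Reach.trans {S : Set E} {x y z : V} (h : Reach s t S x y) (h' : Reach s t S y z) :
    Reach s t S x z := Relation.EqvGen.trans _ _ _ h h'

lemma Reach.edge {S : Set E} {e : E} (h : e ∉ S) : Reach s t S (s e) (t e) :=
  Relation.EqvGen.rel _ _ ⟨e, h, rfl, rfl⟩

lemma Reach.iff_of_inv {S : Set E} {P : V → Prop} (h : ∀ e, e ∉ S → (P (s e) ↔ P (t e)))
    {x y : V} (r : Reach s t S x y) : P x ↔ P y := by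
  induction r with
  | rel x y hxy =>
    obtain ⟨e, he, rfl, rfl⟩ := hxy
    exact h e he
  | refl x => exact Iff.rfl
  | symm x y _ ih => exact ih.symm
  | trans x y z _ _ ih1 ih2 => exact ih1.trans ih2

lemma Reach.mono {S S' : Set E} (hS : S ⊆ S') {x y : V} (r : Reach s t S' x y) :
    Reach s t S x y := by
  induction r with
  | rel x y hxy =>
    obtain ⟨e, he, rfl, rfl⟩ := hxy
    exact Reach.edge (fun h' => he (hS h'))
  | refl x => exact Reach.refl _ x
  | symm x y _ ih => exact ih.symm
  | trans x y z _ _ ih1 ih2 => exact ih1.trans ih2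

/-- `p` and `q` are the two ends of the edge `e`, in some order. -/
def Ends (s t : E → V) (e : E) (p q : V) : Prop :=
  (p = s e ∧ q = t e) ∨ (p = t e ∧ q = s e)

lemma Ends.swap {e : E} {p q : V} (h : Ends s t e p q) : Ends s t e q p := by
  rcases h with ⟨rfl, rfl⟩ | ⟨rfl, rfl⟩
  · exact Or.inr ⟨rfl, rfl⟩
  · exact Or.inl ⟨rfl, rfl⟩

lemma Ends.reach {e : E} {p q : V} (h : Ends s t e p q) {S : Set E} (he : e ∉ S) :
    Reach s t S p q := by
  rcases h with ⟨rfl, rfl⟩ | ⟨rfl, rfl⟩
  · exact Reach.edge he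
  · exact (Reach.edge he).symm

lemma Ends.not_reach {e : E} {p q : V} (h : Ends s t e p q)
    (sep : ¬ Reach s t {e} (s e) (t e)) : ¬ Reach s t {e} p q := by
  rcases h with ⟨rfl, rfl⟩ | ⟨rfl, rfl⟩
  · exact sep
  · exact fun h => sep h.symm

/-- The far half-trees of two edges seen from a common connected piece are disjoint. -/
lemma far_disjoint {k k' : E} (hne : k ≠ k') {p q p' q' : V} (hk : Ends s t k p q)
    (hk' : Ends s t k' p' q') (sepk : ¬ Reach s t {k} (s k) (t k))
    (sepk' : ¬ Reach s t {k'} (s k') (t k')) (hpp : Reach s t {k, k'} p p') {x : V}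
    (hx : Reach s t {k} x q) (hx' : Reach s t {k'} x q') : False := by
  have nk := hk.not_reach sepk
  have nk' := hk'.not_reach sepk'
  have kk' : k ∉ ({k'} : Set E) := by simpa using hne
  have k'k : k' ∉ ({k} : Set E) := by simpa using hne.symm
  have sub1 : ({k} : Set E) ⊆ {k, k'} := by intro z hz; simp at hz; simp [hz]
  have sub2 : ({k'} : Set E) ⊆ {k, k'} := by intro z hz; simp at hz; simp [hz]
  have hno : ∀ y, (y = p ∨ y = q) → ¬ Reach s t {k, k'} y q' := by
    intro y hy hr
    have h1 : Reach s t {k'} y q' := hr.mono sub2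
    have h2 : Reach s t {k'} y p := by
      rcases hy with rfl | rfl
      · exact Reach.refl _ _
      · exact (hk.reach kk').symm
    exact nk' ((h2.trans (hpp.mono sub2)).symm.trans h1)
  have hinv : ∀ e, e ∉ ({k'} : Set E) →
      (Reach s t {k, k'} (s e) q' ↔ Reach s t {k, k'} (t e) q') := by
    intro e he
    by_cases hek : e = k
    · subst hek
      have h1 : (s e = p ∨ s e = q) ∧ (t e = p ∨ t e = q) := by
        rcases hk with ⟨rfl, rfl⟩ | ⟨rfl, rfl⟩ <;> simp
      exact iff_of_false (hno _ h1.1) (hno _ h1.2)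
    · have hemem : e ∉ ({k, k'} : Set E) := by
        simp only [Set.mem_insert_iff, Set.mem_singleton_iff, not_or]
        exact ⟨hek, by simpa using he⟩
      exact ⟨fun h => (Reach.edge hemem).symm.trans h, fun h => (Reach.edge hemem).trans h⟩
  have h3 : Reach s t {k, k'} x q' :=
    (Reach.iff_of_inv (P := fun y => Reach s t {k, k'} y q') hinv hx').mpr (Reach.refl _ _)
  have h4 : Reach s t {k} q q' := hx.symm.trans (h3.mono sub1)
  have h5 : Reach s t {k} q' p' := (hk'.reach k'k).symm
  exact nk ((h4.trans (h5.trans (hpp.mono sub1).symm)).symm)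

/-- Avoiding two edges one at a time lets one avoid both. -/
lemma reach_pair {e f : E} {x q' p' : V} (hf : Ends s t f p' q')
    (sepf : ¬ Reach s t {f} (s f) (t f)) (h1 : Reach s t {e} x q') (h2 : Reach s t {f} x q') :
    Reach s t {e, f} x q' := by
  have nf := hf.not_reach sepf
  have hinv : ∀ g, g ∉ ({e} : Set E) →
      ((Reach s t {e, f} (s g) q' ∨ ¬ Reach s t {f} (s g) q') ↔
        (Reach s t {e, f} (t g) q' ∨ ¬ Reach s t {f} (t g) q')) := by
    intro g hg
    by_cases hgf : g = f
    · subst hgf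
      rcases hf with ⟨rfl, rfl⟩ | ⟨rfl, rfl⟩
      · exact iff_of_true (Or.inr nf) (Or.inl (Reach.refl _ _))
      · exact iff_of_true (Or.inl (Reach.refl _ _)) (Or.inr nf)
    · have hgm : g ∉ ({e, f} : Set E) := by
        simp only [Set.mem_insert_iff, Set.mem_singleton_iff, not_or]
        exact ⟨by simpa using hg, hgf⟩
      have hgm' : g ∉ ({f} : Set E) := by simpa using hgf
      have e1 : Reach s t {e, f} (s g) q' ↔ Reach s t {e, f} (t g) q' :=
        ⟨fun h => (Reach.edge hgm).symm.trans h, fun h => (Reach.edge hgm).trans h⟩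
      have e2 : Reach s t {f} (s g) q' ↔ Reach s t {f} (t g) q' :=
        ⟨fun h => (Reach.edge hgm').symm.trans h, fun h => (Reach.edge hgm').trans h⟩
      rw [e1, e2]
  have := (Reach.iff_of_inv
    (P := fun y => Reach s t {e, f} y q' ∨ ¬ Reach s t {f} y q') hinv h1).mpr
      (Or.inl (Reach.refl _ _))
  rcases this with h | h
  · exact h
  · exact absurd h2 h

end Graph

/-- A group acting on a tree, given by `s t : E → V`, with trivial edge stabilisers. -/
structure FreeEdgeAction (H : Type*) [Group H] {V E : Type*} [MulAction H V] [MulAction H E]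
    (s t : E → V) : Prop where
  hs : ∀ (h : H) (e : E), s (h • e) = h • s e
  ht : ∀ (h : H) (e : E), t (h • e) = h • t e
  conn : ∀ x y : V, Reach s t ∅ x y
  sep : ∀ e : E, ¬ Reach s t {e} (s e) (t e)
  free : ∀ (h : H) (e : E), h • e = e → h = 1

section Action

variable {H : Type*} [Group H] {V E : Type*} [MulAction H V] [MulAction H E] {s t : E → V}

lemma Ends.smul (T : FreeEdgeAction H s t) (h : H) {e : E} {p q : V} (hk : Ends s t e p q) :
    Ends s t (h • e) (h • p) (h • q) := by
  rcases hk with ⟨rfl, rfl⟩ | ⟨rfl, rfl⟩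
  · exact Or.inl ⟨(T.hs h e).symm, (T.ht h e).symm⟩
  · exact Or.inr ⟨(T.ht h e).symm, (T.hs h e).symm⟩

lemma Reach.smul (T : FreeEdgeAction H s t) (h : H) {S : Set E} {x y : V}
    (r : Reach s t S x y) : Reach s t {e | h⁻¹ • e ∈ S} (h • x) (h • y) := by
  induction r with
  | rel x y hxy =>
    obtain ⟨e, he, rfl, rfl⟩ := hxy
    rw [← T.hs, ← T.ht]
    exact Reach.edge (by simpa using he)
  | refl x => exact Reach.refl _ _
  | symm x y _ ih => exact ih.symm
  | trans x y z _ _ ih1 ih2 => exact ih1.trans ih2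

lemma Reach.smul_single (T : FreeEdgeAction H s t) (h : H) {e : E} {x y : V}
    (r : Reach s t {e} x y) : Reach s t {h • e} (h • x) (h • y) := by
  refine (r.smul T h).mono ?_
  intro z hz
  simp only [Set.mem_singleton_iff] at hz
  simp [hz]

lemma Reach.smul_single_iff (T : FreeEdgeAction H s t) (h : H) {e : E} {x y : V} :
    Reach s t {h • e} (h • x) (h • y) ↔ Reach s t {e} x y := by
  constructor
  · intro r
    have := r.smul_single T h⁻¹
    simpa using this
  · exact fun r => r.smul_single T h

/-- Same component after removing the whole orbit of `e₀`. -/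
def R (H : Type*) [Group H] {V E : Type*} [MulAction H V] [MulAction H E] (s t : E → V)
    (e₀ : E) (x y : V) : Prop :=
  Reach s t (MulAction.orbit H e₀) x y

lemma R.smul (T : FreeEdgeAction H s t) (h : H) {e₀ : E} {x y : V} (r : R H s t e₀ x y) :
    R H s t e₀ (h • x) (h • y) := by
  refine (Reach.smul T h r).mono ?_
  rintro z ⟨g, rfl⟩
  exact ⟨h⁻¹ * g, by simp [mul_smul]⟩

lemma R.symm {e₀ : E} {x y : V} (r : R H s t e₀ x y) : R H s t e₀ y x := Reach.symm r

lemma R.trans {e₀ : E} {x y z : V} (r : R H s t e₀ x y) (r' : R H s t e₀ y z) :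
    R H s t e₀ x z := Reach.trans r r'

lemma R.refl (e₀ : E) (x : V) : R H s t e₀ x x := Reach.refl _ _

lemma R.single {e₀ : E} {x y : V} (r : R H s t e₀ x y) (h : H) :
    Reach s t {h • e₀} x y := by
  refine Reach.mono ?_ r
  rintro z hz
  simp only [Set.mem_singleton_iff] at hz
  exact ⟨h, hz.symm⟩

lemma R.pair {e₀ : E} {x y : V} (r : R H s t e₀ x y) (h h' : H) :
    Reach s t {h • e₀, h' • e₀} x y := by
  refine Reach.mono ?_ r
  rintro z hz
  simp only [Set.mem_insert_iff, Set.mem_singleton_iff] at hz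
  rcases hz with hz | hz
  · exact ⟨h, hz.symm⟩
  · exact ⟨h', hz.symm⟩

/-- Setwise stabiliser of the component of `x` after removing the orbit of `e₀`. -/
def compStab (T : FreeEdgeAction H s t) (e₀ : E) (x : V) : Subgroup H where
  carrier := {h | R H s t e₀ (h • x) x}
  one_mem' := by simpa using R.refl (H := H) (s := s) (t := t) e₀ x
  mul_mem' := by
    intro a b ha hb
    have h1 : R H s t e₀ (a • (b • x)) (a • x) := R.smul T a hb
    have h2 : R H s t e₀ (a • x) x := ha
    have := h1.trans h2
    simpa [mul_smul] using this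
  inv_mem' := by
    intro a ha
    have h1 : R H s t e₀ (a⁻¹ • (a • x)) (a⁻¹ • x) := R.smul T a⁻¹ ha
    have := h1.symm
    simpa using this

lemma mem_compStab (T : FreeEdgeAction H s t) (e₀ : E) (x : V) (h : H) :
    h ∈ compStab T e₀ x ↔ R H s t e₀ (h • x) x := Iff.rfl

lemma sides (T : FreeEdgeAction H s t) (e : E) (x : V) :
    Reach s t {e} x (s e) ∨ Reach s t {e} x (t e) := by
  have hinv : ∀ f, f ∉ (∅ : Set E) →
      ((Reach s t {e} (s f) (s e) ∨ Reach s t {e} (s f) (t e)) ↔
        (Reach s t {e} (t f) (s e) ∨ Reach s t {e} (t f) (t e))) := by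
    intro f _
    by_cases hf : f = e
    · subst hf
      exact iff_of_true (Or.inl (Reach.refl _ _)) (Or.inr (Reach.refl _ _))
    · have hfm : f ∉ ({e} : Set E) := by simpa using hf
      have h1 : ∀ z, Reach s t {e} (s f) z ↔ Reach s t {e} (t f) z := fun z =>
        ⟨fun h => (Reach.edge hfm).symm.trans h, fun h => (Reach.edge hfm).trans h⟩
      rw [h1, h1]
  exact (Reach.iff_of_inv
    (P := fun y => Reach s t {e} y (s e) ∨ Reach s t {e} y (t e)) hinv (T.conn x (s e))).mpr
      (Or.inl (Reach.refl _ _))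

lemma sides' (T : FreeEdgeAction H s t) {e : E} {p q : V} (he : Ends s t e p q) (x : V) :
    Reach s t {e} x p ∨ Reach s t {e} x q := by
  rcases he with ⟨rfl, rfl⟩ | ⟨rfl, rfl⟩
  · exact sides T e x
  · exact (sides T e x).symm

lemma smul_ne_of_ne (T : FreeEdgeAction H s t) {h k : H} (hk : h ≠ k) (e : E) :
    h • e ≠ k • e := by
  intro heq
  apply hk
  have : (k⁻¹ * h) • e = e := by rw [mul_smul, heq]; simp
  have h1 := T.free _ _ this
  rw [inv_mul_eq_one] at h1
  exact h1.symm

end Action

end Pool.Agent.LibKurosh
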