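import Mathlib
import Pool.Agent.LibKurosh.Tree

set_option autoImplicit false

/-! Ping-pong for two factors, and the splitting of a group acting on a tree with trivial edge
stabilisers. -/

namespace Pool.Agent.LibKurosh

open Monoid

section PingPong

/-- The two-member family. -/
def fam (C D : Type) : Bool → Type
  | true => C
  | false => D

instance famGroup (C D : Type) [Group C] [Group D] : ∀ b, Group (fam C D b)
  | true => inferInstanceAs (Group C)
  | false => inferInstanceAs (Group D)

/-- The two-member family of homomorphisms. -/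
def famHom {C D G : Type} [Group C] [Group D] [Group G] (f : C →* G) (g : D →* G) :
    ∀ b, fam C D b →* G
  | true => f
  | false => g

variable {C D G : Type} [Group C] [Group D] [Group G]

/-- First inclusion. -/
def inT (C D : Type) [Group C] [Group D] : C →* CoprodI (fam C D) :=
  (CoprodI.of : fam C D true →* CoprodI (fam C D))

/-- Second inclusion. -/
def inF (C D : Type) [Group C] [Group D] : D →* CoprodI (fam C D) :=
  (CoprodI.of : fam C D false →* CoprodI (fam C D))

lemma lift_inT (f : C →* G) (g : D →* G) (x : C) :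
    CoprodI.lift (famHom f g) (inT C D x) = f x :=
  CoprodI.lift_of (famHom f g) (i := true) x

lemma lift_inF (f : C →* G) (g : D →* G) (x : D) :
    CoprodI.lift (famHom f g) (inF C D x) = g x :=
  CoprodI.lift_of (famHom f g) (i := false) x

/-- The comparison map. -/
def toI (C D : Type) [Group C] [Group D] : Coprod C D →* CoprodI (fam C D) :=
  Coprod.lift (inT C D) (inF C D)

lemma lift_toI (f : C →* G) (g : D →* G) :
    (CoprodI.lift (famHom f g)).comp (toI C D) = Coprod.lift f g := by
  apply Coprod.hom_ext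
  · ext x
    exact lift_inT f g x
  · ext x
    exact lift_inF f g x

lemma toI_injective : Function.Injective (toI C D) := by
  have h := lift_toI (Coprod.inl : C →* Coprod C D) (Coprod.inr : D →* Coprod C D)
  intro x y hxy
  have hx := DFunLike.congr_fun h x
  have hy := DFunLike.congr_fun h y
  rw [Coprod.lift_inl_inr] at hx hy
  simp only [MonoidHom.comp_apply, MonoidHom.id_apply] at hx hy
  rw [← hx, ← hy, hxy]

/-- Ping-pong lemma for two factors. -/
theorem coprod_lift_injective {α : Type} [MulAction G α] (f : C →* G) (g : D →* G)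
    (X Y : Set α) (hX : X.Nonempty) (hY : Y.Nonempty) (hXY : Disjoint X Y)
    (h1 : ∀ c : C, c ≠ 1 → ∀ y ∈ Y, f c • y ∈ X) (h2 : ∀ d : D, d ≠ 1 → ∀ x ∈ X, g d • x ∈ Y)
    (hc : Infinite C ∨ Infinite D) : Function.Injective (Coprod.lift f g) := by
  rw [← lift_toI f g, MonoidHom.coe_comp]
  refine Function.Injective.comp ?_ toI_injective
  refine CoprodI.lift_injective_of_ping_pong (famHom f g) ?_
    (fun b => match b with | true => X | false => Y) ?_ ?_ ?_
  · right
    have h3 : ∀ K : Type, Infinite K → 3 ≤ Cardinal.mk K := fun K hK =>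
      ((Cardinal.natCast_lt_aleph0 (n := 3)).le).trans (Cardinal.aleph0_le_mk K)
    rcases hc with hc | hc
    · exact ⟨true, h3 _ hc⟩
    · exact ⟨false, h3 _ hc⟩
  · rintro (_ | _)
    · exact hY
    · exact hX
  · rintro (_ | _) (_ | _) hij
    · exact absurd rfl hij
    · exact hXY.symm
    · exact hXY
    · exact absurd rfl hij
  · rintro (_ | _) (_ | _) hij
    · exact absurd rfl hij
    · intro h hh
      rintro _ ⟨x, hx, rfl⟩
      exact h2 h hh x hx
    · intro h hh
      rintro _ ⟨x, hx, rfl⟩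
      exact h1 h hh x hx
    · exact absurd rfl hij

end PingPong

section Split

variable {H : Type} [Group H] {V E : Type} [MulAction H V] [MulAction H E] {s t : E → V}

lemma infinite_of_ne_bot [IsMulTorsionFree H] {C : Subgroup H} (hC : C ≠ ⊥) : Infinite C := by
  obtain ⟨c, hc, hc1⟩ := (Subgroup.ne_bot_iff_exists_ne_one.mp hC) |>.elim
    (fun c hc => (⟨c.1, c.2, fun h => hc (Subtype.ext h)⟩ : ∃ c : H, c ∈ C ∧ c ≠ 1))
  refine Infinite.of_injective (fun n : ℕ => (⟨c ^ n, C.pow_mem hc n⟩ : C)) ?_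
  intro m n hmn
  have h1 : c ^ m = c ^ n := congrArg Subtype.val hmn
  by_contra hne
  have key : ∀ a b : ℕ, a < b → c ^ a = c ^ b → False := by
    intro a b hab he
    have h2 : c ^ (b - a) = 1 := by
      have h3 : c ^ b = c ^ a * c ^ (b - a) := by rw [← pow_add]; congr 1; omega
      rw [h3] at he
      exact (mul_eq_left.mp he.symm)
    have h4 : b - a ≠ 0 := by omega
    exact hc1 ((pow_eq_one_iff_left h4).mp h2)
  rcases lt_or_gt_of_ne hne with h | h
  · exact key _ _ h h1
  · exact key _ _ h h1.symm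

lemma R.not_of_sep (T : FreeEdgeAction H s t) (e₀ : E) : ¬ R H s t e₀ (s e₀) (t e₀) := by
  intro h
  have := h.single (1 : H)
  rw [one_smul] at this
  exact T.sep e₀ this

lemma gen1 (T : FreeEdgeAction H s t) (e₀ : E)
    (hno : ∀ h : H, ¬ R H s t e₀ (h • t e₀) (s e₀)) :
    compStab T e₀ (s e₀) ⊔ compStab T e₀ (t e₀) = ⊤ := by
  set K := compStab T e₀ (s e₀) ⊔ compStab T e₀ (t e₀) with hK
  have hCK : compStab T e₀ (s e₀) ≤ K := le_sup_left
  have hDK : compStab T e₀ (t e₀) ≤ K := le_sup_right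
  let P : V → Prop := fun x => ∃ k ∈ K, R H s t e₀ x (k • s e₀) ∨ R H s t e₀ x (k • t e₀)
  have hu : ∀ h : H, P (h • s e₀) ↔ h ∈ K := by
    intro h
    constructor
    · rintro ⟨k, hk, hr | hr⟩
      · have h1 : R H s t e₀ ((k⁻¹ * h) • s e₀) (s e₀) := by
          have := hr.smul T k⁻¹
          simpa [mul_smul] using this
        have h2 := K.mul_mem hk (hCK h1)
        simpa using h2
      · exfalso
        have h1 : R H s t e₀ (s e₀) ((h⁻¹ * k) • t e₀) := by
          have := hr.smul T h⁻¹
          simpa [mul_smul] using this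
        exact hno _ h1.symm
    · intro hh
      exact ⟨h, hh, Or.inl (R.refl _ _)⟩
  have hv : ∀ h : H, P (h • t e₀) ↔ h ∈ K := by
    intro h
    constructor
    · rintro ⟨k, hk, hr | hr⟩
      · exfalso
        have h1 : R H s t e₀ ((k⁻¹ * h) • t e₀) (s e₀) := by
          have := hr.smul T k⁻¹
          simpa [mul_smul] using this
        exact hno _ h1
      · have h1 : R H s t e₀ ((k⁻¹ * h) • t e₀) (t e₀) := by
          have := hr.smul T k⁻¹
          simpa [mul_smul] using this
        have h2 := K.mul_mem hk (hDK h1)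
        simpa using h2
    · intro hh
      exact ⟨h, hh, Or.inr (R.refl _ _)⟩
  have hinv : ∀ f, f ∉ (∅ : Set E) → (P (s f) ↔ P (t f)) := by
    intro f _
    by_cases hf : f ∈ MulAction.orbit H e₀
    · obtain ⟨h, rfl⟩ := hf
      simp only
      rw [T.hs, T.ht, hu, hv]
    · have h1 : R H s t e₀ (s f) (t f) := Reach.edge hf
      constructor
      · rintro ⟨k, hk, hr | hr⟩
        · exact ⟨k, hk, Or.inl (h1.symm.trans hr)⟩
        · exact ⟨k, hk, Or.inr (h1.symm.trans hr)⟩
      · rintro ⟨k, hk, hr | hr⟩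
        · exact ⟨k, hk, Or.inl (h1.trans hr)⟩
        · exact ⟨k, hk, Or.inr (h1.trans hr)⟩
  rw [eq_top_iff]
  intro h _
  have h1 : P (s e₀) := ⟨1, K.one_mem, Or.inl (by simpa using R.refl (H := H) e₀ (s e₀))⟩
  have h2 : P (h • s e₀) := (Reach.iff_of_inv (P := P) hinv (T.conn _ _)).mpr h1
  exact (hu h).mp h2

lemma gen2 (T : FreeEdgeAction H s t) (e₀ : E) (τ : H)
    (hτ : R H s t e₀ (τ • t e₀) (s e₀)) :
    compStab T e₀ (s e₀) ⊔ Subgroup.zpowers τ = ⊤ := by
  set K := compStab T e₀ (s e₀) ⊔ Subgroup.zpowers τ with hK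
  have hCK : compStab T e₀ (s e₀) ≤ K := le_sup_left
  have hτK : τ ∈ K := (le_sup_right : Subgroup.zpowers τ ≤ K) (Subgroup.mem_zpowers τ)
  have hτ' : R H s t e₀ (t e₀) (τ⁻¹ • s e₀) := by
    have := hτ.smul T τ⁻¹
    simpa using this
  let P : V → Prop := fun x => ∃ k ∈ K, R H s t e₀ x (k • s e₀)
  have hu : ∀ h : H, P (h • s e₀) ↔ h ∈ K := by
    intro h
    constructor
    · rintro ⟨k, hk, hr⟩
      have h1 : R H s t e₀ ((k⁻¹ * h) • s e₀) (s e₀) := by
        have := hr.smul T k⁻¹
        simpa [mul_smul] using this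
      have h2 := K.mul_mem hk (hCK h1)
      simpa using h2
    · intro hh
      exact ⟨h, hh, R.refl _ _⟩
  have hv : ∀ h : H, P (h • t e₀) ↔ h ∈ K := by
    intro h
    have h0 : R H s t e₀ (h • t e₀) ((h * τ⁻¹) • s e₀) := by
      have := hτ'.smul T h
      simpa [mul_smul] using this
    constructor
    · rintro ⟨k, hk, hr⟩
      have h1 : h * τ⁻¹ ∈ K := (hu _).mp ⟨k, hk, h0.symm.trans hr⟩
      have h2 := K.mul_mem h1 hτK
      simpa using h2
    · intro hh
      exact ⟨h * τ⁻¹, K.mul_mem hh (K.inv_mem hτK), h0⟩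
  have hinv : ∀ f, f ∉ (∅ : Set E) → (P (s f) ↔ P (t f)) := by
    intro f _
    by_cases hf : f ∈ MulAction.orbit H e₀
    · obtain ⟨h, rfl⟩ := hf
      simp only
      rw [T.hs, T.ht, hu, hv]
    · have h1 : R H s t e₀ (s f) (t f) := Reach.edge hf
      constructor
      · rintro ⟨k, hk, hr⟩
        exact ⟨k, hk, h1.symm.trans hr⟩
      · rintro ⟨k, hk, hr⟩
        exact ⟨k, hk, h1.trans hr⟩
  rw [eq_top_iff]
  intro h _
  have h1 : P (s e₀) := ⟨1, K.one_mem, by simpa using R.refl (H := H) e₀ (s e₀)⟩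
  have h2 : P (h • s e₀) := (Reach.iff_of_inv (P := P) hinv (T.conn _ _)).mpr h1
  exact (hu h).mp h2

/-- Two translates of `e₀` whose near ends lie in one component have disjoint far sides. -/
lemma orbit_far (T : FreeEdgeAction H s t) (e₀ : E) {h k : H} (hhk : h ≠ k)
    {p q p' q' : V} (hp : Ends s t (h • e₀) p q) (hp' : Ends s t (k • e₀) p' q')
    (r : R H s t e₀ p p') {x : V} (hx : Reach s t {h • e₀} x q)
    (hx' : Reach s t {k • e₀} x q') : False :=
  far_disjoint (smul_ne_of_ne T hhk e₀) hp hp' (T.sep _) (T.sep _) (r.pair h k) hx hx'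

theorem split1 [IsMulTorsionFree H] (T : FreeEdgeAction H s t) (e₀ : E)
    (hno : ∀ h : H, ¬ R H s t e₀ (h • t e₀) (s e₀))
    (hC : compStab T e₀ (s e₀) ≠ ⊥) :
    Nonempty (H ≃* Coprod (compStab T e₀ (s e₀)) (compStab T e₀ (t e₀))) := by
  set C := compStab T e₀ (s e₀) with hCdef
  set D := compStab T e₀ (t e₀) with hDdef
  have e1 : ∀ h : H, Ends s t (h • e₀) (h • s e₀) (h • t e₀) := fun h =>
    Or.inl ⟨(T.hs h e₀).symm, (T.ht h e₀).symm⟩
  have e0 : Ends s t ((1 : H) • e₀) (s e₀) (t e₀) := by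
    have := e1 1
    simpa using this
  have inj : Function.Injective (Coprod.lift C.subtype D.subtype) := by
    refine coprod_lift_injective (α := V) C.subtype D.subtype
      {x | Reach s t {e₀} x (s e₀)} {x | Reach s t {e₀} x (t e₀)}
      ⟨_, Reach.refl _ _⟩ ⟨_, Reach.refl _ _⟩ ?_ ?_ ?_ (Or.inl (infinite_of_ne_bot hC))
    · rw [Set.disjoint_left]
      intro x hx hx'
      exact T.sep e₀ (hx.symm.trans hx')
    · rintro ⟨c, hc⟩ hc1 y hy
      have hc1' : c ≠ 1 := fun h => hc1 (Subtype.ext h)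
      rcases sides T e₀ (c • y) with h | h
      · exact h
      · exfalso
        have hy' : Reach s t {c • e₀} (c • y) (c • t e₀) := hy.smul_single T c
        have h' : Reach s t {(1 : H) • e₀} (c • y) (t e₀) := by simpa using h
        exact orbit_far T e₀ hc1' (e1 c) e0 hc hy' h'
    · rintro ⟨c, hc⟩ hc1 y hy
      have hc1' : c ≠ 1 := fun h => hc1 (Subtype.ext h)
      rcases sides T e₀ (c • y) with h | h
      · exfalso
        have hy' : Reach s t {c • e₀} (c • y) (c • s e₀) := hy.smul_single T c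
        have h' : Reach s t {(1 : H) • e₀} (c • y) (s e₀) := by simpa using h
        exact orbit_far T e₀ hc1' (e1 c).swap e0.swap hc hy' h'
      · exact h
  have surj : Function.Surjective (Coprod.lift C.subtype D.subtype) := by
    rw [← MonoidHom.range_eq_top, Coprod.range_lift]
    simpa using gen1 T e₀ hno
  exact ⟨(MulEquiv.ofBijective _ ⟨inj, surj⟩).symm⟩

theorem split2 [IsMulTorsionFree H] (T : FreeEdgeAction H s t) (e₀ : E) (τ : H)
    (hτ : R H s t e₀ (τ • t e₀) (s e₀)) (hC : compStab T e₀ (s e₀) ≠ ⊥) :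
    Nonempty (H ≃* Coprod (compStab T e₀ (s e₀)) (Multiplicative ℤ)) := by
  set C := compStab T e₀ (s e₀) with hCdef
  have e1 : ∀ h : H, Ends s t (h • e₀) (h • s e₀) (h • t e₀) := fun h =>
    Or.inl ⟨(T.hs h e₀).symm, (T.ht h e₀).symm⟩
  have e0 : Ends s t ((1 : H) • e₀) (s e₀) (t e₀) := by
    have := e1 1
    simpa using this
  have hτC : τ ∉ C := by
    intro h
    have h1 : R H s t e₀ (τ • s e₀) (τ • t e₀) := R.trans h hτ.symm
    have h2 := h1.smul T τ⁻¹
    simp only [inv_smul_smul] at h2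
    exact R.not_of_sep T e₀ h2
  have hτ1 : τ ≠ 1 := fun h => hτC (h ▸ C.one_mem)
  -- the two far sides at the base component
  set Y : Set V := {x | Reach s t {e₀} x (t e₀)} with hY
  set Z : Set V := {x | Reach s t {τ • e₀} x (τ • s e₀)} with hZ
  set Xt : Set V := Y ∪ Z with hXt
  set XC : Set V := {x | ∃ c ∈ C, c ≠ 1 ∧ c⁻¹ • x ∈ Xt} with hXC
  have hYZ : ∀ x, x ∈ Y → x ∈ Z → False := by
    intro x hx hx'
    have hx1 : Reach s t {(1 : H) • e₀} x (t e₀) := by rw [one_smul]; exact hx
    exact orbit_far T e₀ (Ne.symm hτ1) e0 (e1 τ).swap hτ.symm hx1 hx'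
  have hdisj : ∀ x, x ∈ Xt → x ∈ XC → False := by
    rintro x hx ⟨c, hc, hc1, hcx⟩
    -- far sides of `c • e₀` and `(c * τ) • e₀`
    have hcx' : Reach s t {c • e₀} x (c • t e₀) ∨
        Reach s t {(c * τ) • e₀} x ((c * τ) • s e₀) := by
      rcases hcx with h | h
      · left
        have := h.smul_single T c
        simpa using this
      · right
        have := h.smul_single T c
        simpa [mul_smul] using this
    have hcτ : R H s t e₀ ((c * τ) • t e₀) (s e₀) := by
      have := hτ.smul T c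
      rw [mul_smul]
      exact this.trans hc
    have n1 : c * τ ≠ 1 := by
      intro h
      apply hτC
      have : τ = c⁻¹ := (eq_inv_of_mul_eq_one_right h)
      rw [this]
      exact C.inv_mem hc
    have n2 : c * τ ≠ τ := by
      intro h
      exact hc1 (mul_eq_right.mp h)
    have n3 : c ≠ τ := fun h => hτC (h ▸ hc)
    rcases hx with hx | hx
    · have hx1 : Reach s t {(1 : H) • e₀} x (t e₀) := by rw [one_smul]; exact hx
      rcases hcx' with h | h
      · exact orbit_far T e₀ hc1 (e1 c) e0 hc h hx1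
      · exact orbit_far T e₀ n1 (e1 _).swap e0 hcτ h hx1
    · rcases hcx' with h | h
      · exact orbit_far T e₀ n3 (e1 c) (e1 τ).swap (R.trans hc hτ.symm) h hx
      · exact orbit_far T e₀ n2 (e1 _).swap (e1 τ).swap (hcτ.trans hτ.symm) h hx
  -- `τ` pushes the complement of `Y` into `Z`
  have up : ∀ x, x ∉ Y → τ • x ∈ Z := by
    intro x hx
    rcases sides T e₀ x with h | h
    · exact h.smul_single T τ
    · exact absurd h hx
  have down : ∀ x, x ∉ Z → τ⁻¹ • x ∈ Y := by
    intro x hx
    rcases sides T (τ • e₀) x with h | h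
    · rw [T.hs] at h
      exact absurd h hx
    · rw [T.ht] at h
      have := h.smul_single T τ⁻¹
      simp only [inv_smul_smul] at this
      exact this
  have upn : ∀ n : ℕ, ∀ x, x ∉ Y → τ ^ (n + 1) • x ∈ Z := by
    intro n
    induction n with
    | zero => intro x hx; simpa using up x hx
    | succ n ih =>
      intro x hx
      rw [pow_succ', mul_smul]
      exact up _ (fun h => hYZ _ h (ih x hx))
  have downn : ∀ n : ℕ, ∀ x, x ∉ Z → (τ⁻¹) ^ (n + 1) • x ∈ Y := by
    intro n
    induction n with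
    | zero => intro x hx; simpa using down x hx
    | succ n ih =>
      intro x hx
      rw [pow_succ', mul_smul]
      exact down _ (fun h => hYZ _ (ih x hx) h)
  have inj : Function.Injective (Coprod.lift C.subtype (zpowersHom H τ)) := by
    refine coprod_lift_injective (α := V) C.subtype (zpowersHom H τ) XC Xt ?_
      ⟨t e₀, Or.inl (Reach.refl _ _)⟩ ?_ ?_ ?_ (Or.inl (infinite_of_ne_bot hC))
    · obtain ⟨c, hc⟩ := Subgroup.ne_bot_iff_exists_ne_one.mp hC
      refine ⟨c.1 • t e₀, c.1, c.2, fun h => hc (Subtype.ext h), ?_⟩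
      simp only [inv_smul_smul]
      exact Or.inl (Reach.refl _ _)
    · rw [Set.disjoint_left]
      exact fun x hx hx' => hdisj x hx' hx
    · rintro ⟨c, hc⟩ hc1 y hy
      refine ⟨c, hc, fun h => hc1 (Subtype.ext h), ?_⟩
      show c⁻¹ • (c • y) ∈ Xt
      simpa using hy
    · intro d hd x hx
      have hxY : x ∉ Y := fun h => hdisj x (Or.inl h) hx
      have hxZ : x ∉ Z := fun h => hdisj x (Or.inr h) hx
      have hd0 : Multiplicative.toAdd d ≠ 0 := fun h => hd (by
        rw [← ofAdd_toAdd d, h]; rfl)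
      rw [zpowersHom_apply]
      rcases lt_or_gt_of_ne hd0 with h | h
      · obtain ⟨n, hn⟩ : ∃ n : ℕ, Multiplicative.toAdd d = -((n : ℤ) + 1) :=
          ⟨(-(Multiplicative.toAdd d) - 1).toNat, by omega⟩
        left
        rw [hn, zpow_neg, ← inv_zpow]
        exact_mod_cast downn n x hxZ
      · obtain ⟨n, hn⟩ : ∃ n : ℕ, Multiplicative.toAdd d = (n : ℤ) + 1 :=
          ⟨(Multiplicative.toAdd d - 1).toNat, by omega⟩
        right
        rw [hn]
        exact_mod_cast upn n x hxY
  have surj : Function.Surjective (Coprod.lift C.subtype (zpowersHom H τ)) := by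
    rw [← MonoidHom.range_eq_top, Coprod.range_lift]
    have h1 : (zpowersHom H τ).range = Subgroup.zpowers τ := by
      ext x
      simp only [MonoidHom.mem_range, zpowersHom_apply, Subgroup.mem_zpowers_iff]
      constructor
      · rintro ⟨d, rfl⟩
        exact ⟨_, rfl⟩
      · rintro ⟨k, rfl⟩
        exact ⟨Multiplicative.ofAdd k, by simp⟩
    rw [h1]
    simpa using gen2 T e₀ τ hτ
  exact ⟨(MulEquiv.ofBijective _ ⟨inj, surj⟩).symm⟩

end Split

end Pool.Agent.LibKurosh
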