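import Mathlib
import Pool.Agent.LibKurosh.Defs
import Pool.Agent.LibKurosh.Split

set_option autoImplicit false

/-! A freely indecomposable noncyclic torsion-free group acting on a tree with trivial edge
stabilisers fixes a vertex. -/

namespace Pool.Agent.LibKurosh

open Monoid

section Walks

variable {V E : Type} (s t : E → V)

/-- Adjacency. -/
def Adj (x y : V) : Prop := ∃ e, Ends s t e x y

/-- There is a walk with exactly `n` steps. -/
def RN : ℕ → V → V → Prop
  | 0, x, y => x = y
  | n + 1, x, y => ∃ z, Adj s t x z ∧ RN n z y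

variable {s t}

lemma Adj.symm {x y : V} (h : Adj s t x y) : Adj s t y x := by
  obtain ⟨e, he⟩ := h
  exact ⟨e, he.swap⟩

lemma RN.append {m n : ℕ} {x y z : V} (h : RN s t m x y) (h' : RN s t n y z) :
    RN s t (m + n) x z := by
  induction m generalizing x with
  | zero =>
    have : x = y := h
    subst this
    simpa using h'
  | succ m ih =>
    obtain ⟨w, hw, hr⟩ := h
    have := ih hr
    rw [show m + 1 + n = (m + n) + 1 by omega]
    exact ⟨w, hw, this⟩

lemma RN.one {x y : V} (h : Adj s t x y) : RN s t 1 x y := ⟨y, h, rfl⟩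

lemma RN.symm {n : ℕ} {x y : V} (h : RN s t n x y) : RN s t n y x := by
  induction n generalizing x with
  | zero => exact Eq.symm h
  | succ n ih =>
    obtain ⟨w, hw, hr⟩ := h
    exact (ih hr).append (RN.one hw.symm)

lemma exists_RN {x y : V} (h : Reach s t ∅ x y) : ∃ n, RN s t n x y := by
  induction h with
  | rel x y hxy =>
    obtain ⟨e, -, rfl, rfl⟩ := hxy
    exact ⟨1, RN.one ⟨e, Or.inl ⟨rfl, rfl⟩⟩⟩
  | refl x => exact ⟨0, rfl⟩
  | symm x y _ ih =>
    obtain ⟨n, hn⟩ := ih
    exact ⟨n, hn.symm⟩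
  | trans x y z _ _ ih1 ih2 =>
    obtain ⟨n, hn⟩ := ih1
    obtain ⟨m, hm⟩ := ih2
    exact ⟨n + m, hn.append hm⟩

/-- A walk entering the `q`-side of `e` crosses `e`. -/
lemma cross {e : E} {p q : V} (he : Ends s t e p q) (sep : ¬ Reach s t {e} (s e) (t e))
    {n : ℕ} {x y : V} (h : RN s t n x y) (hx : ¬ Reach s t {e} x q) (hy : Reach s t {e} y q) :
    ∃ i j, i + 1 + j = n ∧ RN s t i x p ∧ RN s t j q y := by
  induction n generalizing x with
  | zero =>
    have : x = y := h
    subst this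
    exact absurd hy hx
  | succ n ih =>
    obtain ⟨z, ⟨f, hf⟩, hr⟩ := h
    by_cases hz : Reach s t {e} z q
    · have hfe : f = e := by
        by_contra hne
        exact hx ((hf.reach (by simpa using hne)).trans hz)
      subst hfe
      have hxz : x = p ∧ z = q := by
        rcases he with ⟨hp, hq⟩ | ⟨hp, hq⟩ <;> rcases hf with ⟨h1, h2⟩ | ⟨h1, h2⟩
        · exact ⟨h1.trans hp.symm, h2.trans hq.symm⟩
        · exact absurd (by rw [h1, hq]; exact Reach.refl _ _) hx
        · exact absurd (by rw [h1, hq]; exact Reach.refl _ _) hx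
        · exact ⟨h1.trans hp.symm, h2.trans hq.symm⟩
      obtain ⟨rfl, rfl⟩ := hxz
      exact ⟨0, n, by omega, rfl, hr⟩
    · obtain ⟨i, j, hij, hi, hj⟩ := ih hr hz
      exact ⟨i + 1, j, by omega, ⟨z, ⟨f, hf⟩, hi⟩, hj⟩

end Walks

section Fix

variable {H : Type} [Group H] {V E : Type} [MulAction H V] [MulAction H E] {s t : E → V}

lemma RN.smul (T : FreeEdgeAction H s t) (h : H) {n : ℕ} {x y : V} (r : RN s t n x y) :
    RN s t n (h • x) (h • y) := by
  induction n generalizing x with
  | zero => exact congrArg (fun z => h • z) (show x = y from r)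
  | succ n ih =>
    obtain ⟨z, ⟨e, he⟩, hr⟩ := r
    exact ⟨h • z, ⟨h • e, he.smul T h⟩, ih hr⟩

/-- The `q`-side of `e` is disjoint from all its nontrivial translates. -/
def Small (H : Type) [Group H] {V E : Type} [MulAction H V] (s t : E → V) (e : E) (q : V) :
    Prop :=
  ∀ h : H, h ≠ 1 → ∀ x : V, Reach s t {e} x q → Reach s t {e} (h⁻¹ • x) q → False

lemma Small.smul (T : FreeEdgeAction H s t) (g : H) {e : E} {q : V} (hS : Small H s t e q) :
    Small H s t (g • e) (g • q) := by
  intro h hh x hx hx'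
  have h1 : Reach s t {e} (g⁻¹ • x) q := by
    have := hx.smul_single T g⁻¹
    simpa using this
  have h2 : Reach s t {e} ((g⁻¹ * h * g)⁻¹ • (g⁻¹ • x)) q := by
    have := hx'.smul_single T g⁻¹
    simpa [mul_smul] using this
  refine hS (g⁻¹ * h * g) ?_ _ h1 h2
  intro h3
  apply hh
  have : h = g * (g⁻¹ * h * g) * g⁻¹ := by group
  rw [this, h3]
  group

/-- The two sides of an edge cannot both be small. -/
lemma not_both_small (T : FreeEdgeAction H s t) {e : E} {p q : V} (he : Ends s t e p q)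
    (h1 : Small H s t e q) (h2 : Small H s t e p) (h : H) (hh : h ≠ 1) : False := by
  have he' : h • e ≠ e := fun h' => hh (T.free h e h')
  have hedge : Reach s t {e} (h • p) (h • q) := (he.smul T h).reach (by simpa using he')
  rcases sides' T he (h • p) with h3 | h3
  · exact h2 h hh (h • p) h3 (by simpa using Reach.refl {e} p)
  · exact h1 h hh (h • q) (hedge.symm.trans h3) (by simpa using Reach.refl {e} q)

/-- Case A: the base point lies in the small side of the first edge. -/
lemma caseA (T : FreeEdgeAction H s t) {e : E} {p q : V} (he : Ends s t e p q)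
    (hS : Small H s t e q) {h : H} (hh : h ≠ 1) {n : ℕ} (hr : RN s t n p (h • q)) :
    ∃ i, i < n ∧ RN s t i p (h • p) := by
  have he' : e ≠ h • e := fun h' => hh (T.free h e h'.symm)
  have hq : Reach s t {h • e} (h • q) (h • q) := Reach.refl _ _
  have hp : ¬ Reach s t {h • e} p (h • q) := by
    intro hp
    have hpq : Reach s t {h • e} p q := he.reach (by simpa using he')
    have h3 : Reach s t {h • e} q (h • q) := hpq.symm.trans hp
    have h4 : Reach s t {e} (h⁻¹ • q) q := by
      have := h3.smul_single T h⁻¹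
      simpa using this
    exact hS h hh q (Reach.refl _ _) h4
  obtain ⟨i, j, hij, hi, -⟩ := cross (he.smul T h) (T.sep _) hr hp hq
  exact ⟨i, by omega, hi⟩

lemma last_step {n : ℕ} {x y : V} (r : RN s t (n + 1) x y) :
    ∃ z, RN s t n x z ∧ Adj s t z y := by
  obtain ⟨z, hz, hr⟩ := r.symm
  exact ⟨z, hr.symm, hz.symm⟩

lemma elliptic (T : FreeEdgeAction H s t)
    (hsm : ∀ e : E, ∃ p q, Ends s t e p q ∧ Small H s t e q) (n : ℕ) :
    ∀ (x : V) (h : H), h ≠ 1 → RN s t n x (h • x) → ∃ y : V, h • y = y := by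
  induction n using Nat.strong_induction_on with
  | _ n ih =>
  intro x h hh hr
  rcases n with _ | n
  · exact ⟨x, (show x = h • x from hr).symm⟩
  have hr0 := hr
  obtain ⟨x1, ⟨e, hex⟩, hr1⟩ := hr
  obtain ⟨w, hrw, ⟨f, hfx⟩⟩ := last_step hr0
  obtain ⟨p, q, he, hS⟩ := hsm e
  obtain ⟨p', q', hf, hS'⟩ := hsm f
  -- positions of the first edge
  have pos1 : (x = p ∧ x1 = q) ∨ (x = q ∧ x1 = p) := by
    rcases he with ⟨hp, hq⟩ | ⟨hp, hq⟩ <;> rcases hex with ⟨h1, h2⟩ | ⟨h1, h2⟩
    · exact Or.inl ⟨h1.trans hp.symm, h2.trans hq.symm⟩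
    · exact Or.inr ⟨h1.trans hq.symm, h2.trans hp.symm⟩
    · exact Or.inr ⟨h1.trans hq.symm, h2.trans hp.symm⟩
    · exact Or.inl ⟨h1.trans hp.symm, h2.trans hq.symm⟩
  have pos2 : (w = q' ∧ h • x = p') ∨ (w = p' ∧ h • x = q') := by
    rcases hf with ⟨hp, hq⟩ | ⟨hp, hq⟩ <;> rcases hfx with ⟨h1, h2⟩ | ⟨h1, h2⟩
    · exact Or.inr ⟨h1.trans hp.symm, h2.trans hq.symm⟩
    · exact Or.inl ⟨h1.trans hq.symm, h2.trans hp.symm⟩
    · exact Or.inl ⟨h1.trans hq.symm, h2.trans hp.symm⟩
    · exact Or.inr ⟨h1.trans hp.symm, h2.trans hq.symm⟩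
  rcases pos1 with ⟨hxp, hx1q⟩ | ⟨hxq, hx1p⟩
  swap
  · -- case A for `h`
    rw [hx1p] at hr1
    rw [hxq] at hr1
    obtain ⟨i, hi, hri⟩ := caseA T he hS hh hr1
    exact ih i (by omega) p h hh hri
  rcases pos2 with ⟨hw, hhx⟩ | ⟨hw, hhx⟩
  swap
  · -- case A for `h⁻¹`
    have hh' : h⁻¹ ≠ 1 := by simpa using hh
    have hx' : x = h⁻¹ • q' := by rw [← hhx]; simp
    have h1 : RN s t n (h⁻¹ • p') (h⁻¹ • (h⁻¹ • q')) := by
      have h2 : RN s t n p' x := by rw [← hw]; exact hrw.symm
      have h3 := h2.smul T h⁻¹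
      rwa [hx'] at h3
    obtain ⟨i, hi, hri⟩ := caseA T (hf.smul T h⁻¹) (hS'.smul T h⁻¹) hh' h1
    obtain ⟨y, hy⟩ := ih i (by omega) _ h⁻¹ hh' hri
    refine ⟨y, ?_⟩
    rw [inv_smul_eq_iff] at hy
    exact hy.symm
  -- case B
  rw [hx1q] at hr1
  rw [hw] at hrw
  by_cases hA : Reach s t {e} (h • x) q
  swap
  · -- the walk leaves the small side of `e` again
    have hA' : Reach s t {e} (h • x) p := (sides' T he (h • x)).resolve_right hA
    have hq : ¬ Reach s t {e} q p := fun h' => he.not_reach (T.sep e) h'.symm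
    obtain ⟨i, j, hij, -, hj⟩ := cross he.swap (T.sep e) hr1 hq hA'
    rw [← hxp] at hj
    exact ih j (by omega) x h hh hj
  by_cases hB : Reach s t {f} x q'
  swap
  · obtain ⟨i, j, hij, hi, -⟩ := cross hf (T.sep f) hrw hB (Reach.refl _ _)
    rw [← hhx] at hi
    exact ih i (by omega) x h hh hi
  exfalso
  by_cases hef : e = f
  · subst hef
    -- both small ends of the same edge
    rcases he with ⟨hp, hq⟩ | ⟨hp, hq⟩ <;> rcases hf with ⟨hp', hq'⟩ | ⟨hp', hq'⟩
    · exact Ends.not_reach (Or.inl ⟨hp, hq⟩) (T.sep e)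
        (by rw [hxp] at hB; rw [hq' ] at hB; rw [hq]; exact hB)
    · exact not_both_small T (Or.inl ⟨hp, hq⟩ : Ends s t e p q) hS
        (by rw [hp, ← hq']; exact hS') h hh
    · exact not_both_small T (Or.inr ⟨hp, hq⟩ : Ends s t e p q) hS
        (by rw [hp, ← hq']; exact hS') h hh
    · exact Ends.not_reach (Or.inr ⟨hp, hq⟩) (T.sep e)
        (by rw [hxp] at hB; rw [hq' ] at hB; rw [hq]; exact hB)
  · have hef' : f ∉ ({e} : Set E) := by
      simp only [Set.mem_singleton_iff]
      exact fun h' => hef h'.symm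
    have hfe' : e ∉ ({f} : Set E) := by simpa using hef
    have h1 : Reach s t {e} q q' := by
      have h2 : Reach s t {e} p' q' := hf.reach hef'
      rw [hhx] at hA
      exact hA.symm.trans h2
    have h2 : Reach s t {f} q q' := by
      have h3 : Reach s t {f} p q := he.reach hfe'
      rw [hxp] at hB
      exact h3.symm.trans hB
    have h3 : Reach s t {e, f} q q' := reach_pair hf (T.sep f) h1 h2
    have hSp : Small H s t e p := by
      intro g hg z hz hz'
      have key : ∀ z, Reach s t {e} z p → Reach s t {f} z q' := by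
        intro z hz
        rcases sides' T hf z with h4 | h4
        · exact absurd (far_disjoint hef he.swap hf.swap (T.sep e) (T.sep f) h3 hz h4) id
        · exact h4
      exact hS' g hg z (key _ hz) (key _ hz')
    exact not_both_small T he hS hSp h hh

lemma fixed_unique (T : FreeEdgeAction H s t)
    (hsm : ∀ e : E, ∃ p q, Ends s t e p q ∧ Small H s t e q) {h k : H} (hh : h ≠ 1)
    (hk : k ≠ 1) (n : ℕ) :
    ∀ x y : V, h • x = x → k • y = y → RN s t n x y → x = y := by
  induction n using Nat.strong_induction_on with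
  | _ n ih =>
  intro x y hx hy hr
  rcases n with _ | n
  · exact hr
  obtain ⟨x1, ⟨e, hex⟩, hr1⟩ := hr
  obtain ⟨p, q, he, hS⟩ := hsm e
  have hxS : ¬ Reach s t {e} x q := by
    intro h1
    exact hS h hh x h1 (by rw [inv_smul_eq_iff.mpr hx.symm]; exact h1)
  have hyS : ¬ Reach s t {e} y q := by
    intro h1
    exact hS k hk y h1 (by rw [inv_smul_eq_iff.mpr hy.symm]; exact h1)
  have pos1 : (x = p ∧ x1 = q) ∨ (x = q ∧ x1 = p) := by
    rcases he with ⟨hp, hq⟩ | ⟨hp, hq⟩ <;> rcases hex with ⟨h1, h2⟩ | ⟨h1, h2⟩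
    · exact Or.inl ⟨h1.trans hp.symm, h2.trans hq.symm⟩
    · exact Or.inr ⟨h1.trans hq.symm, h2.trans hp.symm⟩
    · exact Or.inr ⟨h1.trans hq.symm, h2.trans hp.symm⟩
    · exact Or.inl ⟨h1.trans hp.symm, h2.trans hq.symm⟩
  rcases pos1 with ⟨hxp, hx1q⟩ | ⟨hxq, -⟩
  · rw [hx1q] at hr1
    have hA' : Reach s t {e} y p := (sides' T he y).resolve_right hyS
    have hq : ¬ Reach s t {e} q p := fun h' => he.not_reach (T.sep e) h'.symm
    obtain ⟨i, j, hij, -, hj⟩ := cross he.swap (T.sep e) hr1 hq hA'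
    rw [← hxp] at hj
    exact ih j (by omega) x y hx hy hj
  · exact absurd (by rw [hxq]; exact Reach.refl _ _) hxS

lemma small_of_indecomposable [IsMulTorsionFree H] (T : FreeEdgeAction H s t)
    (hI : FreelyIndecomposable H) (hc : ¬ IsCyclic H) (e : E) :
    ∃ p q, Ends s t e p q ∧ Small H s t e q := by
  have e1 : ∀ h : H, Ends s t (h • e) (h • s e) (h • t e) := fun h =>
    Or.inl ⟨(T.hs h e).symm, (T.ht h e).symm⟩
  have e0 : Ends s t ((1 : H) • e) (s e) (t e) := by
    have := e1 1
    simpa using this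
  by_cases hex : ∃ τ : H, R H s t e (τ • t e) (s e)
  · exfalso
    obtain ⟨τ, hτ⟩ := hex
    by_cases hC : compStab T e (s e) = ⊥
    · have h1 := gen2 T e τ hτ
      rw [hC, bot_sup_eq] at h1
      apply hc
      refine ⟨τ, fun x => ?_⟩
      have : x ∈ (⊤ : Subgroup H) := Subgroup.mem_top x
      rwa [← h1] at this
    · obtain ⟨φ⟩ := split2 T e τ hτ hC
      refine (hI.2 _ _ ?_ ?_).false φ
      · exact (Subgroup.nontrivial_iff_ne_bot _).mpr hC
      · infer_instance
  · have hno : ∀ h : H, ¬ R H s t e (h • t e) (s e) := fun h hh => hex ⟨h, hh⟩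
    have hgen := gen1 T e hno
    by_cases hC : compStab T e (s e) = ⊥
    · -- everything stabilises the component of `t e`
      rw [hC, bot_sup_eq] at hgen
      refine ⟨t e, s e, Or.inr ⟨rfl, rfl⟩, ?_⟩
      intro h hh x hx hx'
      have hm : R H s t e (h • t e) (t e) := by
        have : h ∈ compStab T e (t e) := by rw [hgen]; trivial
        exact this
      have h1 : Reach s t {h • e} x (h • s e) := by
        have := hx'.smul_single T h
        simpa using this
      exact orbit_far T e hh (e1 h).swap e0.swap hm h1 (by simpa using hx)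
    · by_cases hD : compStab T e (t e) = ⊥
      · rw [hD, sup_bot_eq] at hgen
        refine ⟨s e, t e, Or.inl ⟨rfl, rfl⟩, ?_⟩
        intro h hh x hx hx'
        have hm : R H s t e (h • s e) (s e) := by
          have : h ∈ compStab T e (s e) := by rw [hgen]; trivial
          exact this
        have h1 : Reach s t {h • e} x (h • t e) := by
          have := hx'.smul_single T h
          simpa using this
        exact orbit_far T e hh (e1 h) e0 hm h1 (by simpa using hx)
      · exfalso
        obtain ⟨φ⟩ := split1 T e hno hC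
        exact (hI.2 _ _ ((Subgroup.nontrivial_iff_ne_bot _).mpr hC)
          ((Subgroup.nontrivial_iff_ne_bot _).mpr hD)).false φ

/-- A freely indecomposable noncyclic torsion-free group acting on a tree with trivial edge
stabilisers has a global fixed vertex. -/
theorem exists_fixed [IsMulTorsionFree H] [Nonempty V] (T : FreeEdgeAction H s t)
    (hI : FreelyIndecomposable H) (hc : ¬ IsCyclic H) : ∃ x : V, ∀ h : H, h • x = x := by
  have hsm := small_of_indecomposable T hI hc
  have := hI.1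
  obtain ⟨h0, hh0⟩ := exists_ne (1 : H)
  have hfix : ∀ h : H, h ≠ 1 → ∃ y : V, h • y = y := by
    intro h hh
    obtain ⟨x⟩ := (inferInstance : Nonempty V)
    obtain ⟨n, hn⟩ := exists_RN (T.conn x (h • x))
    exact elliptic T hsm n x h hh hn
  obtain ⟨x0, hx0⟩ := hfix h0 hh0
  refine ⟨x0, fun h => ?_⟩
  by_cases hh : h = 1
  · simp [hh]
  · obtain ⟨y, hy⟩ := hfix h hh
    obtain ⟨n, hn⟩ := exists_RN (T.conn x0 y)
    have := fixed_unique T hsm hh0 hh n x0 y hx0 hy hn
    rw [this]
    exact hy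

end Fix

end Pool.Agent.LibKurosh
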