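import Mathlib
import Pool.Agent.LibKurosh.Elliptic

set_option autoImplicit false

/-! The tree of a free product `A * B`, and the consequence that a freely indecomposable
noncyclic torsion-free subgroup is conjugate into a factor. -/

namespace Pool.Agent.LibKurosh

open Monoid

section

variable (A B : Type) [Group A] [Group B]

/-- Vertices of the tree: cosets of the two factors. -/
abbrev Vert : Type :=
  (Coprod A B ⧸ (Coprod.inl : A →* Coprod A B).range) ⊕
    (Coprod A B ⧸ (Coprod.inr : B →* Coprod A B).range)

/-- The `A`-end of the edge `g`. -/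
def src (g : Coprod A B) : Vert A B := Sum.inl (QuotientGroup.mk g)

/-- The `B`-end of the edge `g`. -/
def tgt (g : Coprod A B) : Vert A B := Sum.inr (QuotientGroup.mk g)

open Classical in
/-- The indicator of the identity. -/
noncomputable def delta (g : Coprod A B) : ZMod 2 := if g = 1 then 1 else 0

/-- Left translations on `G × ZMod 2`. -/
def transl : Coprod A B →* Equiv.Perm (Coprod A B × ZMod 2) where
  toFun g :=
    { toFun := fun x => (g * x.1, x.2)
      invFun := fun x => (g⁻¹ * x.1, x.2)
      left_inv := fun x => by simp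
      right_inv := fun x => by simp }
  map_one' := by ext x <;> simp
  map_mul' g h := by ext x <;> simp [mul_assoc]

/-- The twist by `delta`. -/
noncomputable def twist : Equiv.Perm (Coprod A B × ZMod 2) where
  toFun x := (x.1, x.2 + delta A B x.1)
  invFun x := (x.1, x.2 + delta A B x.1)
  left_inv x := by
    ext
    · rfl
    · simp only [add_assoc, CharTwo.add_self_eq_zero, add_zero]
  right_inv x := by
    ext
    · rfl
    · simp only [add_assoc, CharTwo.add_self_eq_zero, add_zero]

/-- The twisted action of the free product. -/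
noncomputable def Phi : Coprod A B →* Equiv.Perm (Coprod A B × ZMod 2) :=
  Coprod.lift ((transl A B).comp Coprod.inl)
    ((MulAut.conj (twist A B)).toMonoidHom.comp ((transl A B).comp Coprod.inr))

variable {A B}

lemma Phi_inl (a : A) (x : Coprod A B × ZMod 2) :
    Phi A B (Coprod.inl a) x = (Coprod.inl a * x.1, x.2) := by
  rw [Phi, Coprod.lift_apply_inl]
  rfl

lemma Phi_inr (b : B) (x : Coprod A B × ZMod 2) :
    Phi A B (Coprod.inr b) x =
      (Coprod.inr b * x.1, x.2 + delta A B x.1 + delta A B (Coprod.inr b * x.1)) := by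
  rw [Phi, Coprod.lift_apply_inr]
  rfl

lemma Phi_fst (g : Coprod A B) : ∀ x : Coprod A B × ZMod 2, (Phi A B g x).1 = g * x.1 := by
  induction g using Coprod.induction_on with
  | inl a => intro x; rw [Phi_inl]
  | inr b => intro x; rw [Phi_inr]
  | mul g h ihg ihh =>
    intro x
    rw [map_mul, Equiv.Perm.mul_apply, ihg, ihh, mul_assoc]

/-- The side function. -/
noncomputable def sideS (g : Coprod A B) : ZMod 2 := (Phi A B g⁻¹ (1, 0)).2

lemma Phi_one_zero (g : Coprod A B) : Phi A B g⁻¹ (1, 0) = (g⁻¹, sideS g) := by
  ext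
  · simpa using Phi_fst g⁻¹ (1, 0)
  · rfl

lemma sideS_inl (g : Coprod A B) (a : A) : sideS (g * Coprod.inl a) = sideS g := by
  have h0 : (g * Coprod.inl a)⁻¹ = (Coprod.inl a⁻¹ : Coprod A B) * g⁻¹ := by
    rw [mul_inv_rev, map_inv]
  have : Phi A B (g * Coprod.inl a)⁻¹ (1, 0) =
      Phi A B (Coprod.inl a⁻¹) (Phi A B g⁻¹ (1, 0)) := by
    rw [h0, map_mul, Equiv.Perm.mul_apply]
  rw [Phi_one_zero, Phi_one_zero, Phi_inl] at this
  have h1 := congrArg Prod.snd this
  exact h1

lemma delta_inv (g : Coprod A B) : delta A B g⁻¹ = delta A B g := by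
  unfold delta
  by_cases hg : g = 1
  · have : g⁻¹ = 1 := by rw [hg, inv_one]
    rw [if_pos hg, if_pos this]
  · have : g⁻¹ ≠ 1 := fun h => hg (inv_eq_one.mp h)
    rw [if_neg hg, if_neg this]

lemma sideS_inr (g : Coprod A B) (b : B) :
    sideS (g * Coprod.inr b) + delta A B (g * Coprod.inr b) = sideS g + delta A B g := by
  have h3 : (Coprod.inr b⁻¹ : Coprod A B) * g⁻¹ = (g * Coprod.inr b)⁻¹ := by
    rw [mul_inv_rev, map_inv]
  have : Phi A B (g * Coprod.inr b)⁻¹ (1, 0) =
      Phi A B (Coprod.inr b⁻¹) (Phi A B g⁻¹ (1, 0)) := by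
    rw [← h3, map_mul, Equiv.Perm.mul_apply]
  rw [Phi_one_zero, Phi_one_zero, Phi_inr] at this
  have h2 := congrArg Prod.snd this
  simp only at h2
  rw [h3, delta_inv, delta_inv] at h2
  rw [h2, add_assoc, add_assoc, CharTwo.add_self_eq_zero, add_zero]

/-- Which side of the edge `1` a vertex lies on. -/
noncomputable def vside : Vert A B → ZMod 2
  | Sum.inl x => Quotient.liftOn' x sideS (by
      intro g h hgh
      rw [QuotientGroup.leftRel_apply] at hgh
      obtain ⟨a, ha⟩ := hgh
      have : h = g * Coprod.inl a := by rw [ha]; group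
      rw [this, sideS_inl])
  | Sum.inr x => Quotient.liftOn' x (fun g => sideS g + delta A B g) (by
      intro g h hgh
      rw [QuotientGroup.leftRel_apply] at hgh
      obtain ⟨b, hb⟩ := hgh
      have : h = g * Coprod.inr b := by rw [hb]; group
      show sideS g + delta A B g = sideS h + delta A B h
      rw [this, sideS_inr])

lemma vside_src (g : Coprod A B) : vside (src A B g) = sideS g := rfl

lemma vside_tgt (g : Coprod A B) : vside (tgt A B g) = sideS g + delta A B g := rfl

lemma smul_src (h g : Coprod A B) : h • src A B g = src A B (h * g) := rfl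

lemma smul_tgt (h g : Coprod A B) : h • tgt A B g = tgt A B (h * g) := rfl

lemma sepFP (e : Coprod A B) : ¬ Reach (src A B) (tgt A B) {e} (src A B e) (tgt A B e) := by
  intro h
  have hinv : ∀ g, g ∉ ({e} : Set (Coprod A B)) →
      (vside (e⁻¹ • src A B g) = 0 ↔ vside (e⁻¹ • tgt A B g) = 0) := by
    intro g hg
    have hne : e⁻¹ * g ≠ 1 := by
      intro h1
      exact hg (by simpa using (inv_mul_eq_one.mp h1).symm)
    rw [smul_src, smul_tgt, vside_src, vside_tgt]
    have : delta A B (e⁻¹ * g) = 0 := by simp [delta, hne]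
    rw [this, add_zero]
  have h1 := (Reach.iff_of_inv (P := fun v => vside (e⁻¹ • v) = 0) hinv h)
  rw [smul_src, smul_tgt, vside_src, vside_tgt, inv_mul_cancel] at h1
  have h2 : sideS (1 : Coprod A B) = 0 := by simp [sideS]
  have h3 : delta A B 1 = 1 := by simp [delta]
  rw [h2, h3] at h1
  simp at h1

lemma reach_smulFP (h : Coprod A B) {x y : Vert A B} (r : Reach (src A B) (tgt A B) ∅ x y) :
    Reach (src A B) (tgt A B) ∅ (h • x) (h • y) := by
  induction r with
  | rel x y hxy =>
    obtain ⟨e, -, rfl, rfl⟩ := hxy
    rw [smul_src, smul_tgt]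
    exact Reach.edge (by simp)
  | refl x => exact Reach.refl _ _
  | symm x y _ ih => exact ih.symm
  | trans x y z _ _ ih1 ih2 => exact ih1.trans ih2

lemma reach_one (g : Coprod A B) :
    Reach (src A B) (tgt A B) ∅ (src A B g) (src A B 1) := by
  induction g using Coprod.induction_on with
  | inl a =>
    have : src A B (Coprod.inl a) = src A B 1 := by
      unfold src
      congr 1
      rw [QuotientGroup.eq]
      exact ⟨a⁻¹, by simp⟩
    rw [this]
    exact Reach.refl _ _
  | inr b =>
    have h1 : tgt A B (Coprod.inr b) = tgt A B 1 := by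
      unfold tgt
      congr 1
      rw [QuotientGroup.eq]
      exact ⟨b⁻¹, by simp⟩
    have e1 : Reach (src A B) (tgt A B) ∅ (src A B (Coprod.inr b)) (tgt A B (Coprod.inr b)) :=
      Reach.edge (by simp)
    have e2 : Reach (src A B) (tgt A B) ∅ (src A B 1) (tgt A B 1) := Reach.edge (by simp)
    rw [h1] at e1
    exact e1.trans e2.symm
  | mul g h ihg ihh =>
    have := reach_smulFP g ihh
    rw [smul_src, smul_src, mul_one] at this
    exact this.trans ihg

lemma connFP (x y : Vert A B) : Reach (src A B) (tgt A B) ∅ x y := by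
  have key : ∀ x : Vert A B, Reach (src A B) (tgt A B) ∅ x (src A B 1) := by
    rintro (x | x)
    · induction x using QuotientGroup.induction_on with
      | H g => exact reach_one g
    · induction x using QuotientGroup.induction_on with
      | H g =>
        have e1 : Reach (src A B) (tgt A B) ∅ (src A B g) (tgt A B g) := Reach.edge (by simp)
        exact e1.symm.trans (reach_one g)
  exact (key x).trans (key y).symm

/-- A freely indecomposable noncyclic torsion-free group embedded in `A * B` is conjugate into
one of the factors. -/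
theorem conj_into_factor {K : Type} [Group K] [IsMulTorsionFree K] (j : K →* Coprod A B)
    (hj : Function.Injective j) (hI : FreelyIndecomposable K) (hc : ¬ IsCyclic K) :
    (∃ g : Coprod A B, ∀ k : K, ∃ a : A, g⁻¹ * j k * g = Coprod.inl a) ∨
      (∃ g : Coprod A B, ∀ k : K, ∃ b : B, g⁻¹ * j k * g = Coprod.inr b) := by
  let a1 : MulAction K (Coprod A B) := MulAction.compHom _ j
  let a2 : MulAction K (Vert A B) := MulAction.compHom _ j
  have e1 : ∀ (k : K) (g : Coprod A B), k • g = j k * g := fun _ _ => rfl
  have e2 : ∀ (k : K) (v : Vert A B), k • v = j k • v := fun _ _ => rfl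
  have T : FreeEdgeAction K (src A B) (tgt A B) :=
    { hs := fun k g => rfl
      ht := fun k g => rfl
      conn := connFP
      sep := sepFP
      free := fun k g h => by
        rw [e1] at h
        exact hj (by rw [mul_eq_right.mp h, map_one]) }
  have : Nonempty (Vert A B) := ⟨src A B 1⟩
  obtain ⟨x, hx⟩ := exists_fixed T hI hc
  rcases x with x | x
  · left
    induction x using QuotientGroup.induction_on with
    | H g =>
      refine ⟨g, fun k => ?_⟩
      have h1 := hx k
      rw [e2] at h1
      have h2 : (QuotientGroup.mk (j k * g) :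
          Coprod A B ⧸ (Coprod.inl : A →* Coprod A B).range) = QuotientGroup.mk g :=
        Sum.inl_injective h1
      rw [eq_comm, QuotientGroup.eq] at h2
      obtain ⟨a, ha⟩ := h2
      exact ⟨a, by rw [ha, mul_assoc]⟩
  · right
    induction x using QuotientGroup.induction_on with
    | H g =>
      refine ⟨g, fun k => ?_⟩
      have h1 := hx k
      rw [e2] at h1
      have h2 : (QuotientGroup.mk (j k * g) :
          Coprod A B ⧸ (Coprod.inr : B →* Coprod A B).range) = QuotientGroup.mk g :=
        Sum.inr_injective h1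
      rw [eq_comm, QuotientGroup.eq] at h2
      obtain ⟨a, ha⟩ := h2
      exact ⟨a, by rw [ha, mul_assoc]⟩

end

end Pool.Agent.LibKurosh
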