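import Mathlib
import Pool.Agent.LibKurosh.FreeProd

set_option autoImplicit false

/-! A torsion-free group isomorphic to its free product with `ℤ` has no finite decomposition into
freely indecomposable groups. -/

namespace Pool.Agent.LibKurosh

open Monoid

section

variable {G : Type} [Group G]

/-- Iterates of an endomorphism. -/
def iter (p : G →* G) : ℕ → (G →* G)
  | 0 => MonoidHom.id G
  | n + 1 => p.comp (iter p n)

lemma iter_succ_apply (p : G →* G) (n : ℕ) (x : G) : iter p (n + 1) x = p (iter p n x) := rfl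

lemma iter_succ_apply' (p : G →* G) (n : ℕ) (x : G) : iter p (n + 1) x = iter p n (p x) := by
  induction n with
  | zero => rfl
  | succ n ih => rw [iter_succ_apply, ih, ← iter_succ_apply]

variable (Φ : G ≃* Coprod G (Multiplicative ℤ))

/-- First projection. -/
def pr : G →* G := Coprod.fst.comp Φ.toMonoidHom

/-- Second projection. -/
def qr : G →* Multiplicative ℤ := Coprod.snd.comp Φ.toMonoidHom

/-- First inclusion. -/
def incl : G →* G := Φ.symm.toMonoidHom.comp Coprod.inl

/-- The generator of the infinite cyclic factor. -/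
def t0 : G := Φ.symm (Coprod.inr (Multiplicative.ofAdd 1))

lemma pr_incl (x : G) : pr Φ (incl Φ x) = x := by simp [pr, incl]

lemma qr_incl (x : G) : qr Φ (incl Φ x) = 1 := by simp [qr, incl]

lemma pr_t0 : pr Φ (t0 Φ) = 1 := by simp [pr, t0]

lemma qr_t0 : qr Φ (t0 Φ) = Multiplicative.ofAdd 1 := by simp [qr, t0]

lemma qr_iter (k m : ℕ) : qr Φ (iter (pr Φ) k (iter (incl Φ) m (t0 Φ))) =
    if k = m then Multiplicative.ofAdd 1 else 1 := by
  induction k generalizing m with
  | zero =>
    rcases m with _ | m
    · simpa [iter] using qr_t0 Φ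
    · simp only [iter, MonoidHom.id_apply, MonoidHom.comp_apply, qr_incl]
      simp
  | succ k ih =>
    rcases m with _ | m
    · have : iter (pr Φ) (k + 1) (iter (incl Φ) 0 (t0 Φ)) = 1 := by
        rw [iter_succ_apply']
        simp [iter, pr_t0]
      rw [this]
      simp
    · rw [iter_succ_apply', iter_succ_apply, pr_incl, ih]
      simp

lemma kill {K : Type} [Group K] [IsMulTorsionFree K] (hI : FreelyIndecomposable K)
    (hc : ¬ IsCyclic K) (j : K →* G) (hj : Function.Injective j) :
    (∀ k, qr Φ (j k) = 1) ∧ Function.Injective ((pr Φ).comp j) := by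
  have hj' : Function.Injective (Φ.toMonoidHom.comp j) := Φ.injective.comp hj
  rcases conj_into_factor (Φ.toMonoidHom.comp j) hj' hI hc with ⟨g, hg⟩ | ⟨g, hg⟩
  · constructor
    · intro k
      obtain ⟨a, ha⟩ := hg k
      have h1 := congrArg (Coprod.snd : Coprod G (Multiplicative ℤ) →* _) ha
      rw [map_mul, map_mul, map_inv, Coprod.snd_apply_inl] at h1
      have h2 : Coprod.snd (Φ (j k)) = (1 : Multiplicative ℤ) := by
        have h3 : (Coprod.snd g)⁻¹ * Coprod.snd (Φ (j k)) * Coprod.snd g =
          (1 : Multiplicative ℤ) := h1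
        rw [mul_comm, mul_inv_cancel_left] at h3
        exact h3
      exact h2
    · intro k l hkl
      obtain ⟨a, ha⟩ := hg k
      obtain ⟨b, hb⟩ := hg l
      have hkl' : Coprod.fst (Φ (j k)) = Coprod.fst (Φ (j l)) := hkl
      have h1 := congrArg (Coprod.fst : Coprod G (Multiplicative ℤ) →* _) ha
      have h2 := congrArg (Coprod.fst : Coprod G (Multiplicative ℤ) →* _) hb
      rw [map_mul, map_mul, Coprod.fst_apply_inl] at h1 h2
      have h3 : a = b := by
        rw [← h1, ← h2]
        show _ * Coprod.fst (Φ (j k)) * _ = _ * Coprod.fst (Φ (j l)) * _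
        rw [hkl']
      apply hj'
      rw [h3, ← hb] at ha
      exact mul_left_cancel (mul_right_cancel ha)
  · exfalso
    apply hc
    -- `K` embeds in `ℤ`
    choose f hf using hg
    have hinj : Function.Injective (Coprod.inr : Multiplicative ℤ →* Coprod G _) :=
      Coprod.inr_injective
    let F : K →* Multiplicative ℤ :=
      { toFun := f
        map_one' := hinj (by rw [← hf, map_one]; simp)
        map_mul' := fun x y => hinj (by
          rw [← hf, map_mul, map_mul, ← hf, ← hf]; group) }
    have hF : Function.Injective F := by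
      intro x y hxy
      have h1 : f x = f y := hxy
      apply hj'
      have hx := hf x
      rw [h1, ← hf y] at hx
      exact mul_left_cancel (mul_right_cancel hx)
    exact isCyclic_of_injective F hF

lemma kill_iter {K : Type} [Group K] [IsMulTorsionFree K] (hI : FreelyIndecomposable K)
    (hc : ¬ IsCyclic K) (j : K →* G) (hj : Function.Injective j) (m : ℕ) :
    (∀ k, qr Φ (iter (pr Φ) m (j k)) = 1) ∧
      Function.Injective ((iter (pr Φ) m).comp j) := by
  induction m with
  | zero => exact ⟨(kill Φ hI hc j hj).1, hj⟩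
  | succ m ih =>
    have h1 := kill Φ hI hc ((iter (pr Φ) m).comp j) ih.2
    have h3 : Function.Injective ((iter (pr Φ) (m + 1)).comp j) := h1.2
    exact ⟨(kill Φ hI hc _ h3).1, h3⟩

/-- The homomorphism onto `ℤ ^ N`. -/
def Q (N : ℕ) (x : G) : Fin N → ℤ := fun m => Multiplicative.toAdd (qr Φ (iter (pr Φ) m x))

lemma Q_mul (N : ℕ) (x y : G) : Q Φ N (x * y) = Q Φ N x + Q Φ N y := by
  ext m
  simp [Q]

lemma Q_one (N : ℕ) : Q Φ N (1 : G) = 0 := by
  ext m
  simp [Q]

lemma Q_zpow (N : ℕ) (x : G) (k : ℤ) : Q Φ N (x ^ k) = k • Q Φ N x := by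
  ext m
  simp [Q]

theorem not_finiteKuroshRank [IsMulTorsionFree G] (Φ : G ≃* Coprod G (Multiplicative ℤ)) :
    ¬ FiniteKuroshRank G := by
  rintro ⟨n, K, inst, hI, ⟨ψ⟩⟩
  classical
  let j : ∀ i, K i →* G := fun i => ψ.symm.toMonoidHom.comp CoprodI.of
  have hj : ∀ i, Function.Injective (j i) := fun i =>
    ψ.symm.injective.comp (CoprodI.of_injective i)
  have htf : ∀ i, IsMulTorsionFree (K i) := fun i =>
    Function.Injective.isMulTorsionFree (j i) (hj i)
  -- one vector for each factor
  have hv : ∀ i, ∃ v : Fin (n + 1) → ℤ, ∀ x : K i,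
      Q Φ (n + 1) (j i x) ∈ Submodule.span ℤ {v} := by
    intro i
    by_cases hc : IsCyclic (K i)
    · obtain ⟨g, hg⟩ := hc
      refine ⟨Q Φ (n + 1) (j i g), fun x => ?_⟩
      obtain ⟨k, hk⟩ := Subgroup.mem_zpowers_iff.mp (hg x)
      rw [← hk, map_zpow, Q_zpow]
      exact Submodule.smul_mem _ _ (Submodule.mem_span_singleton_self _)
    · refine ⟨0, fun x => ?_⟩
      have : Q Φ (n + 1) (j i x) = 0 := by
        ext m
        have := (kill_iter Φ (hI i) hc (j i) (hj i) m).1 x
        simp [Q, this]
      rw [this]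
      exact Submodule.zero_mem _
  choose v hv using hv
  have hall : ∀ x : G, Q Φ (n + 1) x ∈ Submodule.span ℤ (Set.range v) := by
    intro x
    have key : ∀ y : CoprodI K,
        Q Φ (n + 1) (ψ.symm y) ∈ Submodule.span ℤ (Set.range v) := by
      intro y
      induction y using CoprodI.induction_on with
      | one => rw [map_one, Q_one]; exact Submodule.zero_mem _
      | of i m =>
        exact Submodule.span_mono (by simp) (hv i m)
      | mul x y hx hy =>
        rw [map_mul, Q_mul]
        exact Submodule.add_mem _ hx hy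
    simpa using key (ψ x)
  have htop : Submodule.span ℤ (Set.range v) = ⊤ := by
    rw [eq_top_iff]
    intro w _
    have hw : w = ∑ m : Fin (n + 1), w m • (Pi.single m (1 : ℤ) : Fin (n + 1) → ℤ) := by
      ext k
      simp [Finset.sum_apply, Pi.single_apply]
    rw [hw]
    refine Submodule.sum_mem _ fun m _ => Submodule.smul_mem _ _ ?_
    have h1 : Q Φ (n + 1) (iter (incl Φ) m (t0 Φ)) = Pi.single m (1 : ℤ) := by
      ext k
      rw [Q, qr_iter]
      by_cases hkm : k = m
      · subst hkm; simp
      · have : (k : ℕ) ≠ (m : ℕ) := fun h => hkm (Fin.ext h)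
        simp [this, hkm]
    rw [← h1]
    exact hall _
  have h1 : (Set.range v).finrank ℤ ≤ Fintype.card (Fin n) := finrank_range_le_card v
  rw [Set.finrank, htop, finrank_top, Module.finrank_fin_fun, Fintype.card_fin] at h1
  omega

end

end Pool.Agent.LibKurosh
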