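import Mathlib
import Pool.Agent.LibKurosh.Rank

set_option autoImplicit false

/-! Kurosh's group and its structure as an ascending union of free groups. -/

namespace Pool.Agent.LibKurosh

open Monoid

/-- The generator `a_n`. -/
def ga (n : ℕ) : Kurosh := PresentedGroup.of (Sum.inl n)

/-- The generator `b_{n+1}`. -/
def gb (n : ℕ) : Kurosh := PresentedGroup.of (Sum.inr n)

lemma ga_eq (n : ℕ) : ga n = ga (n + 1) * gb n * (ga (n + 1))⁻¹ * (gb n)⁻¹ := by
  have h : PresentedGroup.mk kuroshRels (FreeGroup.of (Sum.inl (n + 1)) *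
      FreeGroup.of (Sum.inr n) * (FreeGroup.of (Sum.inl (n + 1)))⁻¹ *
      (FreeGroup.of (Sum.inr n))⁻¹ * (FreeGroup.of (Sum.inl n))⁻¹) = 1 :=
    PresentedGroup.one_of_mem ⟨n, rfl⟩
  simp only [map_mul, map_inv] at h
  exact (mul_inv_eq_one.mp h).symm

/-- The universal property. -/
def homOf {Q : Type} [Group Q] (a b : ℕ → Q)
    (h : ∀ n, a n = a (n + 1) * b n * (a (n + 1))⁻¹ * (b n)⁻¹) : Kurosh →* Q :=
  PresentedGroup.toGroup (f := Sum.elim a b) (by
    rintro _ ⟨n, rfl⟩
    simp only [map_mul, map_inv, FreeGroup.lift_apply_of, Sum.elim_inl, Sum.elim_inr]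
    rw [← h n, mul_inv_cancel])

@[simp] lemma homOf_a {Q : Type} [Group Q] (a b : ℕ → Q) (h) (n : ℕ) :
    homOf a b h (ga n) = a n := by
  simp [homOf, ga]

@[simp] lemma homOf_b {Q : Type} [Group Q] (a b : ℕ → Q) (h) (n : ℕ) :
    homOf a b h (gb n) = b n := by
  simp [homOf, gb]

lemma hom_ext_ab {Q : Type} [Group Q] {f g : Kurosh →* Q} (ha : ∀ n, f (ga n) = g (ga n))
    (hb : ∀ n, f (gb n) = g (gb n)) : f = g := by
  apply PresentedGroup.ext
  rintro (n | n)
  · exact ha n
  · exact hb n

/-! ### The isomorphism with the free product with `ℤ` -/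

/-- Forward map. -/
def fwd : Kurosh →* Coprod Kurosh (Multiplicative ℤ) :=
  homOf
    (fun n => match n with
      | 0 => Coprod.inl (ga 0) * Coprod.inr (Multiplicative.ofAdd 1) *
          (Coprod.inl (ga 0))⁻¹ * (Coprod.inr (Multiplicative.ofAdd 1))⁻¹
      | n + 1 => Coprod.inl (ga n))
    (fun n => match n with
      | 0 => Coprod.inr (Multiplicative.ofAdd 1)
      | n + 1 => Coprod.inl (gb n))
    (by
      rintro (_ | n)
      · rfl
      · simp only
        rw [← map_inv, ← map_inv, ← map_mul, ← map_mul, ← map_mul, ← ga_eq])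

/-- The shift. -/
def shiftHom : Kurosh →* Kurosh :=
  homOf (fun n => ga (n + 1)) (fun n => gb (n + 1)) (fun n => ga_eq (n + 1))

/-- Backward map. -/
def bwd : Coprod Kurosh (Multiplicative ℤ) →* Kurosh :=
  Coprod.lift shiftHom (zpowersHom Kurosh (gb 0))

lemma bwd_fwd : bwd.comp fwd = MonoidHom.id Kurosh := by
  apply hom_ext_ab
  · rintro (_ | n)
    · simp only [MonoidHom.comp_apply, MonoidHom.id_apply, fwd, bwd, homOf_a, map_mul, map_inv,
        Coprod.lift_apply_inl, Coprod.lift_apply_inr, shiftHom, zpowersHom_apply, toAdd_ofAdd,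
        zpow_one]
      exact (ga_eq 0).symm
    · simp [fwd, bwd, shiftHom]
  · rintro (_ | n)
    · simp [fwd, bwd]
    · simp [fwd, bwd, shiftHom]

lemma fwd_bwd : fwd.comp bwd = MonoidHom.id _ := by
  apply Coprod.hom_ext
  · apply hom_ext_ab
    · intro n
      simp [fwd, bwd, shiftHom]
    · intro n
      simp [fwd, bwd, shiftHom]
  · ext
    simp [fwd, bwd]

/-- Kurosh's group is isomorphic to its free product with `ℤ`. -/
def kuroshIso : Kurosh ≃* Coprod Kurosh (Multiplicative ℤ) :=
  MonoidHom.toMulEquiv fwd bwd bwd_fwd fwd_bwd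

/-! ### The stages -/

/-- The stage group: `none` is the current `a_n` and `some i` is `b_{i+1}`. -/
abbrev St : Type := FreeGroup (Option ℕ)

/-- The value of `a_m` at stage `m + k`. -/
def al : ℕ → ℕ → St
  | _, 0 => FreeGroup.of none
  | m, k + 1 => al (m + 1) k * FreeGroup.of (some m) * (al (m + 1) k)⁻¹ *
      (FreeGroup.of (some m))⁻¹

/-- The map from stage `m` to stage `m + k`. -/
def psi (m k : ℕ) : St →* St :=
  FreeGroup.lift (fun o => match o with
    | none => al m k
    | some i => FreeGroup.of (some i))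

@[simp] lemma psi_none (m k : ℕ) : psi m k (FreeGroup.of none) = al m k := by simp [psi]

@[simp] lemma psi_some (m k i : ℕ) :
    psi m k (FreeGroup.of (some i)) = FreeGroup.of (some i) := by simp [psi]

lemma psi_zero (m : ℕ) : psi m 0 = MonoidHom.id St := by
  ext (_ | i)
  · simp [al]
  · simp

lemma psi_succ (m k : ℕ) : psi m (k + 1) = (psi (m + 1) k).comp (psi m 1) := by
  ext (_ | i)
  · simp [al]
  · simp

/-- An infinite rank free group with a shift. -/
abbrev Nn : Type := FreeGroup (ℤ × ℕ)

/-- The shift automorphism. -/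
def shiftAut : MulAut Nn :=
  FreeGroup.freeGroupCongr ((Equiv.addRight (1 : ℤ)).prodCongr (Equiv.refl ℕ))

/-- The action of `ℤ` through the shift. -/
def shiftAct : Multiplicative ℤ →* MulAut Nn := zpowersHom (MulAut Nn) shiftAut

/-- The comparison with a semidirect product. -/
def Theta : St →* Nn ⋊[shiftAct] Multiplicative ℤ :=
  FreeGroup.lift (fun o => match o with
    | none => SemidirectProduct.inr (Multiplicative.ofAdd 1)
    | some i => SemidirectProduct.inl (FreeGroup.of ((0 : ℤ), i)))

/-- The lift of `psi m 1` to the normal subgroup. -/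
def lam (m : ℕ) : St →* Nn :=
  FreeGroup.lift (fun o => match o with
    | none => FreeGroup.of ((1 : ℤ), m) * (FreeGroup.of ((0 : ℤ), m))⁻¹
    | some i => FreeGroup.of ((0 : ℤ), i))

/-- A left inverse of `lam m`. -/
def rho (m : ℕ) : Nn →* St :=
  FreeGroup.lift (fun x => if x.1 = 1 then FreeGroup.of none * FreeGroup.of (some m)
    else FreeGroup.of (some x.2))

lemma rho_lam (m : ℕ) : (rho m).comp (lam m) = MonoidHom.id St := by
  ext (_ | i)
  · simp [rho, lam]
  · simp [rho, lam]

lemma Theta_psi (m : ℕ) : Theta.comp (psi m 1) = SemidirectProduct.inl.comp (lam m) := by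
  ext1 o
  rcases o with _ | i
  · simp only [MonoidHom.comp_apply, psi_none, al, map_mul, map_inv]
    simp only [Theta, lam, FreeGroup.lift_apply_of, map_mul, map_inv]
    have h := SemidirectProduct.inl_aut (φ := shiftAct) (Multiplicative.ofAdd 1)
      (FreeGroup.of ((0 : ℤ), m))
    rw [map_inv] at h
    rw [← h]
    congr 2
  · simp [Theta, lam]

lemma psi_one_injective (m : ℕ) : Function.Injective (psi m 1) := by
  intro x y hxy
  have h1 := DFunLike.congr_fun (Theta_psi m) x
  have h2 := DFunLike.congr_fun (Theta_psi m) y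
  simp only [MonoidHom.comp_apply] at h1 h2
  rw [hxy, h2] at h1
  have h3 := SemidirectProduct.inl_injective h1
  have h4 := DFunLike.congr_fun (rho_lam m) x
  have h5 := DFunLike.congr_fun (rho_lam m) y
  simp only [MonoidHom.comp_apply, MonoidHom.id_apply] at h4 h5
  rw [← h4, ← h5, h3]

lemma psi_injective (m k : ℕ) : Function.Injective (psi m k) := by
  induction k generalizing m with
  | zero => rw [psi_zero]; exact Function.injective_id
  | succ k ih =>
    rw [psi_succ]
    exact (ih (m + 1)).comp (psi_one_injective m)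

/-- Germs at infinity of sequences in the stage group. -/
abbrev Gm : Type := Filter.Germ (Filter.atTop : Filter ℕ) St

/-- The evaluation of Kurosh's group in germs. -/
noncomputable def Psi : Kurosh →* Gm :=
  homOf (fun m => ((fun N => al m (N - m) : ℕ → St) : Gm))
    (fun i => ((fun _ => FreeGroup.of (some i) : ℕ → St) : Gm))
    (by
      intro m
      rw [← Filter.Germ.coe_inv, ← Filter.Germ.coe_inv, ← Filter.Germ.coe_mul,
        ← Filter.Germ.coe_mul, ← Filter.Germ.coe_mul, Filter.Germ.coe_eq]
      filter_upwards [Filter.eventually_ge_atTop (m + 1)] with N hN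
      have : N - m = (N - (m + 1)) + 1 := by omega
      rw [this]
      simp [al])

/-- The map from stage `m`. -/
def st (m : ℕ) : St →* Kurosh :=
  FreeGroup.lift (fun o => match o with
    | none => ga m
    | some i => gb i)

@[simp] lemma st_none (m : ℕ) : st m (FreeGroup.of none) = ga m := by simp [st]

@[simp] lemma st_some (m i : ℕ) : st m (FreeGroup.of (some i)) = gb i := by simp [st]

/-- The sequence of values of a stage element, as a germ. -/
noncomputable def psiGerm (m : ℕ) : St →* Gm where
  toFun x := ((fun N => psi m (N - m) x : ℕ → St) : Gm)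
  map_one' := by simp only [map_one]; rfl
  map_mul' x y := by
    rw [← Filter.Germ.coe_mul]
    congr 1
    ext1 N
    simp

lemma Psi_st (m : ℕ) : Psi.comp (st m) = psiGerm m := by
  ext1 o
  rcases o with _ | i
  · simp [Psi, psiGerm]
  · simp [Psi, psiGerm]

lemma st_injective (m : ℕ) : Function.Injective (st m) := by
  intro x y hxy
  have h1 := DFunLike.congr_fun (Psi_st m) x
  have h2 := DFunLike.congr_fun (Psi_st m) y
  simp only [MonoidHom.comp_apply] at h1 h2
  rw [hxy, h2] at h1
  have h3 : ((fun N => psi m (N - m) y : ℕ → St) : Gm) = ((fun N => psi m (N - m) x : ℕ → St)) :=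
    h1
  rw [Filter.Germ.coe_eq] at h3
  obtain ⟨N, hN⟩ := h3.exists
  exact (psi_injective _ _ hN).symm

lemma st_succ (m : ℕ) : st m = (st (m + 1)).comp (psi m 1) := by
  ext1 o
  rcases o with _ | i
  · simp only [MonoidHom.comp_apply, st_none, psi_none, al, map_mul, map_inv, st_some]
    exact ga_eq m
  · simp

lemma st_range_mono {m n : ℕ} (h : m ≤ n) : (st m).range ≤ (st n).range := by
  induction n, h using Nat.le_induction with
  | base => exact le_rfl
  | succ n _ ih =>
    refine ih.trans ?_
    rw [st_succ n]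
    rintro _ ⟨x, rfl⟩
    exact ⟨psi n 1 x, rfl⟩

lemma exists_st (x : Kurosh) : ∃ m, x ∈ (st m).range := by
  have hx : x ∈ Subgroup.closure (Set.range (PresentedGroup.of (rels := kuroshRels))) := by
    rw [PresentedGroup.closure_range_of]; trivial
  induction hx using Subgroup.closure_induction with
  | mem x hx =>
    obtain ⟨n | n, rfl⟩ := hx
    · exact ⟨n, FreeGroup.of none, st_none n⟩
    · exact ⟨0, FreeGroup.of (some n), st_some 0 n⟩
  | one => exact ⟨0, Subgroup.one_mem _⟩
  | mul x y _ _ hx hy =>
    obtain ⟨m, hm⟩ := hx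
    obtain ⟨n, hn⟩ := hy
    exact ⟨max m n, Subgroup.mul_mem _ (st_range_mono (le_max_left _ _) hm)
      (st_range_mono (le_max_right _ _) hn)⟩
  | inv x _ hx =>
    obtain ⟨m, hm⟩ := hx
    exact ⟨m, Subgroup.inv_mem _ hm⟩

instance : IsMulTorsionFree Kurosh where
  pow_left_injective n hn x y hxy := by
    obtain ⟨k, hk⟩ := exists_st x
    obtain ⟨l, hl⟩ := exists_st y
    obtain ⟨x', hx'⟩ := st_range_mono (le_max_left k l) hk
    obtain ⟨y', hy'⟩ := st_range_mono (le_max_right k l) hl
    subst hx' hy'
    simp only [← map_pow] at hxy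
    have h1 := st_injective _ hxy
    rw [pow_left_injective hn h1]

instance : Countable Kurosh :=
  (PresentedGroup.mk_surjective kuroshRels).countable

/-- The subgroup generated by `a_m` and `b_{i+1}` is free of rank two. -/
lemma exists_free_pair (m i : ℕ) : ∃ u : FreeGroup Bool →* Kurosh, Function.Injective u ∧
    u (FreeGroup.of true) = ga m ∧ u (FreeGroup.of false) = gb i := by
  refine ⟨(st m).comp (FreeGroup.map (fun b => if b then none else some i)),
    (st_injective m).comp (FreeGroup.map_injective ?_), by simp, by simp⟩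
  rintro (_ | _) (_ | _) <;> simp

end Pool.Agent.LibKurosh
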