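import Mathlib
import Pool.Agent.LibKurosh.Gamma

set_option autoImplicit false

/-! The Boolean algebra of almost invariant subsets of Kurosh's group is countable. -/

namespace Pool.Agent.LibKurosh

open FreeGroup (of toWord reduce)

lemma head_of_norm_le (c : Bool × Bool) (f : FreeGroup Bool)
    (h : FreeGroup.norm (FreeGroup.mk [c] * f) ≤ FreeGroup.norm f) :
    ∃ tl, toWord f = (c.1, !c.2) :: tl := by
  have h1 : toWord (FreeGroup.mk [c] * f) = reduce (c :: toWord f) := by
    rw [FreeGroup.toWord_mul, FreeGroup.toWord_mk, FreeGroup.reduce_singleton]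
    rfl
  rw [FreeGroup.norm, FreeGroup.norm, h1, FreeGroup.reduce.cons, FreeGroup.reduce_toWord] at h
  rcases hw : toWord f with _ | ⟨hd, tl⟩
  · rw [hw] at h
    simp at h
  · rw [hw] at h
    simp only at h
    split_ifs at h with hc
    · refine ⟨tl, ?_⟩
      congr 1
      ext
      · exact hc.1.symm
      · rw [hc.2]; simp
    · simp at h

/-- Independence of `1 - a` and `1 - b` in the free group algebra, in terms of finite sets. -/
lemma indep (α β : Set (FreeGroup Bool)) (hα : α.Finite) (hβ : β.Finite)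
    (h : ∀ f, ((f ∈ α ↔ of false * f ∈ α) ↔ (f ∈ β ↔ of true * f ∈ β))) :
    α = ∅ ∧ β = ∅ := by
  by_contra hcon
  let S : Set (FreeGroup Bool) := {f | f ∈ α ∨ of false * f ∈ α ∨ f ∈ β ∨ of true * f ∈ β}
  have hSfin : S.Finite := by
    have h1 : ({f | of false * f ∈ α} : Set (FreeGroup Bool)).Finite :=
      hα.preimage ((mul_right_injective _).injOn)
    have h2 : ({f | of true * f ∈ β} : Set (FreeGroup Bool)).Finite :=
      hβ.preimage ((mul_right_injective _).injOn)
    refine (hα.union (h1.union (hβ.union h2))).subset ?_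
    intro f hf
    exact hf
  have hSne : S.Nonempty := by
    by_contra hS
    rw [Set.not_nonempty_iff_eq_empty] at hS
    apply hcon
    constructor
    · rw [Set.eq_empty_iff_forall_notMem]
      intro f hf
      have : f ∈ S := Or.inl hf
      rw [hS] at this
      exact this
    · rw [Set.eq_empty_iff_forall_notMem]
      intro f hf
      have : f ∈ S := Or.inr (Or.inr (Or.inl hf))
      rw [hS] at this
      exact this
  obtain ⟨f, hf, hmax⟩ := Set.exists_max_image S FreeGroup.norm hSfin hSne
  have k1 : f ∈ α → ∃ tl, toWord f = (false, true) :: tl := by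
    intro h1
    have h2 : (of false)⁻¹ * f ∈ S := Or.inr (Or.inl (by simpa using h1))
    exact head_of_norm_le (false, false) f (hmax _ h2)
  have k2 : of false * f ∈ α → ∃ tl, toWord f = (false, false) :: tl := by
    intro h1
    have h2 : of false * f ∈ S := Or.inl h1
    exact head_of_norm_le (false, true) f (hmax _ h2)
  have k3 : f ∈ β → ∃ tl, toWord f = (true, true) :: tl := by
    intro h1
    have h2 : (of true)⁻¹ * f ∈ S := Or.inr (Or.inr (Or.inr (by simpa using h1)))
    exact head_of_norm_le (true, false) f (hmax _ h2)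
  have k4 : of true * f ∈ β → ∃ tl, toWord f = (true, false) :: tl := by
    intro h1
    have h2 : of true * f ∈ S := Or.inr (Or.inr (Or.inl h1))
    exact head_of_norm_le (true, true) f (hmax _ h2)
  have hh := h f
  have hf' : f ∈ α ∨ of false * f ∈ α ∨ f ∈ β ∨ of true * f ∈ β := hf
  have x12 : f ∈ α → of false * f ∈ α → False := by
    intro h1 h2
    obtain ⟨t1, e1⟩ := k1 h1
    obtain ⟨t2, e2⟩ := k2 h2
    rw [e1] at e2
    simp at e2
  have x13 : f ∈ α → f ∈ β → False := by
    intro h1 h2
    obtain ⟨t1, e1⟩ := k1 h1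
    obtain ⟨t2, e2⟩ := k3 h2
    rw [e1] at e2
    simp at e2
  have x14 : f ∈ α → of true * f ∈ β → False := by
    intro h1 h2
    obtain ⟨t1, e1⟩ := k1 h1
    obtain ⟨t2, e2⟩ := k4 h2
    rw [e1] at e2
    simp at e2
  have x23 : of false * f ∈ α → f ∈ β → False := by
    intro h1 h2
    obtain ⟨t1, e1⟩ := k2 h1
    obtain ⟨t2, e2⟩ := k3 h2
    rw [e1] at e2
    simp at e2
  have x24 : of false * f ∈ α → of true * f ∈ β → False := by
    intro h1 h2
    obtain ⟨t1, e1⟩ := k2 h1
    obtain ⟨t2, e2⟩ := k4 h2
    rw [e1] at e2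
    simp at e2
  have x34 : f ∈ β → of true * f ∈ β → False := by
    intro h1 h2
    obtain ⟨t1, e1⟩ := k3 h1
    obtain ⟨t2, e2⟩ := k4 h2
    rw [e1] at e2
    simp at e2
  rcases hf' with h1 | h1 | h1 | h1
  · have n2 : ¬ of false * f ∈ α := fun h2 => x12 h1 h2
    have n3 : ¬ f ∈ β := fun h2 => x13 h1 h2
    have n4 : ¬ of true * f ∈ β := fun h2 => x14 h1 h2
    simp only [h1, n2, n3, n4] at hh
    simp at hh
  · have n1 : ¬ f ∈ α := fun h2 => x12 h2 h1
    have n3 : ¬ f ∈ β := fun h2 => x23 h1 h2
    have n4 : ¬ of true * f ∈ β := fun h2 => x24 h1 h2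
    simp only [h1, n1, n3, n4] at hh
    simp at hh
  · have n1 : ¬ f ∈ α := fun h2 => x13 h2 h1
    have n2 : ¬ of false * f ∈ α := fun h2 => x23 h2 h1
    have n4 : ¬ of true * f ∈ β := fun h2 => x34 h1 h2
    simp only [h1, n1, n2, n4] at hh
    simp at hh
  · have n1 : ¬ f ∈ α := fun h2 => x14 h2 h1
    have n2 : ¬ of false * f ∈ α := fun h2 => x24 h2 h1
    have n3 : ¬ f ∈ β := fun h2 => x34 h2 h1
    simp only [h1, n1, n2, n3] at hh
    simp at hh

section

variable {G : Type} [Group G]

/-- `Y` is invariant under right multiplication by `g`. -/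
def RInv (Y : Set G) (g : G) : Prop := ∀ x, x * g ∈ Y ↔ x ∈ Y

/-- The invariance group. -/
def invGroup (Y : Set G) : Subgroup G where
  carrier := {g | RInv Y g}
  one_mem' := fun x => by simp
  mul_mem' := by
    intro a b ha hb x
    rw [← mul_assoc]
    exact (hb (x * a)).trans (ha x)
  inv_mem' := by
    intro a ha x
    have := ha (x * a⁻¹)
    simpa using this.symm

lemma finite_diff {Y : Set G} (hY : Y ∈ almostInvariant G) (g : G) :
    {x | ¬ (x ∈ Y ↔ x * g⁻¹ ∈ Y)}.Finite := by
  have h : (symmDiff Y (rtrans Y g)).Finite := hY g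
  refine h.subset ?_
  intro x hx
  rw [Set.mem_symmDiff, mem_rtrans]
  simp only [Set.mem_ofPred_eq] at hx
  tauto

lemma step {Y : Set G} (hY : Y ∈ almostInvariant G) (u : FreeGroup Bool →* G)
    (hu : Function.Injective u) {a b : G} (ha : u (of true) = a) (hb : u (of false) = b)
    (hw : RInv Y (a * b * a⁻¹ * b⁻¹)) : RInv Y a ∧ RInv Y b := by
  set α : Set G := {x | ¬ (x ∈ Y ↔ x * a⁻¹ ∈ Y)} with hα
  set β : Set G := {x | ¬ (x ∈ Y ↔ x * b⁻¹ ∈ Y)} with hβ
  have key : ∀ x : G, x ∉ α ∧ x ∉ β := by
    intro x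
    have inj : Function.Injective (fun f : FreeGroup Bool => x * (u f)⁻¹) := by
      intro f g hfg
      exact hu (inv_injective (mul_left_cancel hfg))
    have h1 := indep {f | x * (u f)⁻¹ ∈ α} {f | x * (u f)⁻¹ ∈ β}
      ((finite_diff hY a).preimage inj.injOn) ((finite_diff hY b).preimage inj.injOn) (by
        intro f
        simp only [Set.mem_ofPred_eq, map_mul, mul_inv_rev, ha, hb]
        set z := x * (u f)⁻¹ with hz
        have e1 : x * ((u f)⁻¹ * b⁻¹) = z * b⁻¹ := by rw [hz, mul_assoc]
        have e2 : x * ((u f)⁻¹ * a⁻¹) = z * a⁻¹ := by rw [hz, mul_assoc]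
        rw [e1, e2]
        have h2 := hw (z * b⁻¹ * a⁻¹)
        have e3 : z * b⁻¹ * a⁻¹ * (a * b * a⁻¹ * b⁻¹) = z * a⁻¹ * b⁻¹ := by group
        rw [e3] at h2
        simp only [hα, hβ, Set.mem_ofPred_eq]
        tauto)
    constructor
    · intro hx
      have : (1 : FreeGroup Bool) ∈ {f | x * (u f)⁻¹ ∈ α} := by simpa using hx
      rw [h1.1] at this
      exact this
    · intro hx
      have : (1 : FreeGroup Bool) ∈ {f | x * (u f)⁻¹ ∈ β} := by simpa using hx
      rw [h1.2] at this
      exact this
  constructor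
  · intro x
    have := (key (x * a)).1
    simp only [hα, Set.mem_ofPred_eq, not_not, mul_inv_cancel_right] at this
    exact this
  · intro x
    have := (key (x * b)).2
    simp only [hβ, Set.mem_ofPred_eq, not_not, mul_inv_cancel_right] at this
    exact this

end

/-- An almost invariant subset of Kurosh's group that is invariant under `a_0` is trivial. -/
lemma all_or_nothing {Y : Set Kurosh} (hY : Y ∈ almostInvariant Kurosh) (h0 : RInv Y (ga 0)) :
    Y = ∅ ∨ Y = Set.univ := by
  have key : ∀ n, RInv Y (ga (n + 1)) ∧ RInv Y (gb n) := by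
    have hstep : ∀ n, RInv Y (ga n) → RInv Y (ga (n + 1)) ∧ RInv Y (gb n) := by
      intro n hn
      obtain ⟨u, hu, hua, hub⟩ := exists_free_pair (n + 1) n
      exact step hY u hu hua hub (by rw [← ga_eq]; exact hn)
    intro n
    induction n with
    | zero => exact hstep 0 h0
    | succ n ih => exact hstep (n + 1) ih.1
  have htop : invGroup Y = ⊤ := by
    rw [eq_top_iff, ← PresentedGroup.closure_range_of kuroshRels, Subgroup.closure_le]
    rintro _ ⟨n | n, rfl⟩
    · rcases n with _ | n
      · exact h0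
      · exact (key n).1
    · exact (key n).2
  have hall : ∀ g : Kurosh, RInv Y g := fun g => by
    have : g ∈ invGroup Y := by rw [htop]; trivial
    exact this
  by_cases h1 : (1 : Kurosh) ∈ Y
  · right
    rw [Set.eq_univ_iff_forall]
    intro x
    have := (hall x 1).mpr h1
    rwa [one_mul] at this
  · left
    rw [Set.eq_empty_iff_forall_notMem]
    intro x hx
    apply h1
    rw [← hall x 1, one_mul]
    exact hx

/-- The Boolean algebra of almost invariant subsets of Kurosh's group is countable. -/
theorem countable_almostInvariant : Countable (almostInvariant Kurosh) := by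
  classical
  let F : almostInvariant Kurosh → Finset Kurosh × Prop := fun Y =>
    ((show (symmDiff (Y : Set Kurosh) (rtrans (Y : Set Kurosh) (ga 0))).Finite from
      Y.2 (ga 0)).toFinset, (1 : Kurosh) ∈ (Y : Set Kurosh))
  have hF : Function.Injective F := by
    intro Y Z hYZ
    have h1 : symmDiff (Y : Set Kurosh) (rtrans (Y : Set Kurosh) (ga 0)) =
        symmDiff (Z : Set Kurosh) (rtrans (Z : Set Kurosh) (ga 0)) := by
      have := congrArg Prod.fst hYZ
      simp only [F] at this
      simpa using this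
    have h2 : ((1 : Kurosh) ∈ (Y : Set Kurosh)) = ((1 : Kurosh) ∈ (Z : Set Kurosh)) :=
      congrArg Prod.snd hYZ
    have hmem : symmDiff (Y : Set Kurosh) (Z : Set Kurosh) ∈ almostInvariant Kurosh := by
      intro g
      refine ((Y.2 g).union (Z.2 g)).subset ?_
      intro x
      simp only [Set.mem_symmDiff, Set.mem_union, mem_rtrans]
      tauto
    have hinv : RInv (symmDiff (Y : Set Kurosh) (Z : Set Kurosh)) (ga 0) := by
      intro x
      have h3 := Set.ext_iff.mp h1 (x * ga 0)
      simp only [Set.mem_symmDiff, mem_rtrans, mul_inv_cancel_right] at h3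
      simp only [Set.mem_symmDiff]
      tauto
    rcases all_or_nothing hmem hinv with h3 | h3
    · apply Subtype.ext
      exact symmDiff_eq_bot.mp h3
    · exfalso
      have h4 : (1 : Kurosh) ∈ symmDiff (Y : Set Kurosh) (Z : Set Kurosh) := by
        rw [h3]; trivial
      rw [Set.mem_symmDiff, h2] at h4
      tauto
  exact hF.countable

end Pool.Agent.LibKurosh
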